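import Pool.Agent.W901.GF.Fam

/-! The grammars of the reduction. -/

set_option autoImplicit false

namespace Pool.Agent.W901.GF

open Pool.Agent.Helper230

/-! ### Languages of linear grammars -/

theorem derN_ters {Q : Type} {R : Set (Q × List (Q ⊕ ℕ))} {n : ℕ} (u : List ℕ) {w : List ℕ}
    (h : DerN (ExR R) n (u.map Sum.inr) w) : w = u := by
  induction u generalizing w with
  | nil => exact h.nil_inv
  | cons x u ih =>
    rw [List.map_cons] at h
    cases h with
    | ter _ h => rw [ih h]

theorem der_lder {Nt : Type} (R : Set (Nt × List ℕ × Option Nt × List ℕ)) :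
    ∀ (q : Nt) (w : List ℕ), Der (ExR {r' : Nt × List (Nt ⊕ ℕ) | ∃ r ∈ R, r' = (r.1,
      r.2.1.map Sum.inr ++ r.2.2.1.toList.map Sum.inl ++ r.2.2.2.map Sum.inr)}) [Sum.inl q] w ↔
      LDer R q w := by
  intro q w
  constructor
  · rintro ⟨n, hn⟩
    induction n using Nat.strong_induction_on generalizing q w with
    | _ n ih =>
    obtain ⟨m, β, rfl, ⟨⟨q', u, o, v⟩, hr, he⟩, hd⟩ := hn.single_inv
    simp only [Prod.mk.injEq] at he
    obtain ⟨rfl, rfl⟩ := he
    obtain ⟨w1, w2, rfl, h1, h2⟩ := hd.split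
    obtain ⟨w3, w4, rfl, h3, h4⟩ := h1.split
    have e1 := derN_ters u h3
    have e2 := derN_ters v h2
    subst e1 e2
    cases o with
    | none =>
      have e3 : w4 = [] := by
        simp only [Option.toList_none, List.map_nil] at h4
        exact h4.nil_inv
      subst e3
      rw [List.append_nil]
      exact LDer.base hr
    | some q' =>
      simp only [Option.toList_some, List.map_cons, List.map_nil] at h4
      exact LDer.step hr (ih m (by omega) _ _ h4)
  · intro h
    induction h with
    | @base q u v h =>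
      refine Der.single (Ex := ExR _) ⟨_, h, rfl⟩ ?_
      simp only [Option.toList_none, List.map_nil, List.append_nil]
      exact (Der.of_ters u).append (Der.of_ters v)
    | @step q q' u v w h _ ih =>
      refine Der.single (Ex := ExR _) ⟨_, h, rfl⟩ ?_
      simp only [Option.toList_some, List.map_cons, List.map_nil]
      exact ((Der.of_ters u).append ih).append (Der.of_ters v)

/-- the encoding of a typed linear rule -/
def encR {Nt : Type} (e : Nt → ℕ) (r : Nt × List ℕ × Option Nt × List ℕ) : ℕ × List ℕ :=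
  (e r.1, r.2.1 ++ r.2.2.1.toList.map e ++ r.2.2.2)

theorem lin_language {Nt : Type} (G : Gram) (hG : G.IsCFG) (e : Nt → ℕ)
    (he : Function.Injective e) (heN : ∀ q, e q ∈ G.N)
    (R : Set (Nt × List ℕ × Option Nt × List ℕ))
    (hP : ∀ p, p ∈ G.P ↔ ∃ r ∈ R, encR e r = p)
    (hlet : ∀ r ∈ R, ∀ x, x ∈ r.2.1 ∨ x ∈ r.2.2.2 → x ∈ G.T) (s : Nt) (hs : G.S = e s) :
    G.language = {w | LDer R s w} := by
  have key : ∀ r : Nt × List ℕ × Option Nt × List ℕ,
      (r.2.1.map Sum.inr ++ r.2.2.1.toList.map Sum.inl ++ r.2.2.2.map Sum.inr :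
        List (Nt ⊕ ℕ)).map (Sum.elim e id) = (encR e r).2 := by
    intro r
    simp [encR]
  rw [lang_eq G hG e {r' : Nt × List (Nt ⊕ ℕ) | ∃ r ∈ R, r' = (r.1,
      r.2.1.map Sum.inr ++ r.2.2.1.toList.map Sum.inl ++ r.2.2.2.map Sum.inr)} s hs heN ?_ ?_]
  · ext w
    exact der_lder R s w
  · rintro q β ⟨r, hr, hβ⟩
    rw [Prod.mk.injEq] at hβ
    obtain ⟨rfl, rfl⟩ := hβ
    refine ⟨?_, ?_⟩
    · rw [key r]
      exact (hP _).2 ⟨r, hr, rfl⟩
    · intro x hx
      apply hlet r hr x
      simpa using hx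
  · intro q γ hγ
    obtain ⟨r, hr, hrγ⟩ := (hP _).1 hγ
    have h1 : e r.1 = e q := congrArg Prod.fst hrγ
    have h2 : (encR e r).2 = γ := congrArg Prod.snd hrγ
    refine ⟨r.2.1.map Sum.inr ++ r.2.2.1.toList.map Sum.inl ++ r.2.2.2.map Sum.inr,
      ⟨r, hr, ?_⟩, ?_⟩
    · rw [← he h1]
    · rw [key r]; exact h2.symm

/-! ### The grammars -/

section

variable (m : ℕ) {Q0 : Type} (e0 : Q0 → ℕ) (s0 : Q0)
  (R0 : Set (Q0 × List ℕ × Option Q0 × List ℕ))

/-- codes of nonterminals -/
def eN : Option (Option Q0) → ℕ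
  | none => m + 1
  | some none => m + 2
  | some (some q) => m + 3 + e0 q

theorem eN_inj (he0 : Function.Injective e0) : Function.Injective (eN m e0) := by
  rintro (_ | _ | q) (_ | _ | q') h
  · rfl
  · simp [eN] at h
  · simp only [eN] at h; omega
  · simp [eN] at h
  · rfl
  · simp only [eN] at h; omega
  · simp only [eN] at h; omega
  · simp only [eN] at h; omega
  · simp only [eN, Nat.add_left_cancel_iff] at h
    rw [he0 h]

/-- the long prefix -/
def pp : List ℕ := List.replicate (m + 2) m

/-- marker words -/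
def mk (i : ℕ) : List ℕ := List.replicate (i + 1) m ++ [i]

/-- the fixed rules -/
def RF : Set (Option (Option Q0) × List ℕ × Option (Option (Option Q0)) × List ℕ) :=
  {r | (∃ i, i < m ∧ r = (none, mk m i, none, [])) ∨ r = (none, [m], none, []) ∨
    r = (none, pp m, none, []) ∨ r = (none, pp m, some (some (some s0)), []) ∨
    (∃ q u o v, (q, u, o, v) ∈ R0 ∧ r = (some (some q), u, o.map (fun q => some (some q)), v)) ∨
    (∃ x, x < m ∧ (r = (some none, [x], some (some none), []) ∨ r = (some none, [x], none, [])))}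

/-- the variable rules -/
def RE (l : List (List ℕ)) :
    Set (Option (Option Q0) × List ℕ × Option (Option (Option Q0)) × List ℕ) :=
  {r | ∃ u ∈ l, r = (none, pp m ++ u, none, []) ∨ r = (none, pp m ++ u, some (some none), [])}

theorem RF_finite (hR0 : R0.Finite) : (RF m s0 R0).Finite := by
  have h1 : ({r | ∃ i, i < m ∧ r = (none, mk m i, none, [])} :
      Set (Option (Option Q0) × List ℕ × Option (Option (Option Q0)) × List ℕ)).Finite := by
    refine ((Set.finite_Iio m).image (fun i => (none, mk m i, none, []))).subset ?_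
    rintro _ ⟨i, hi, rfl⟩
    exact ⟨i, hi, rfl⟩
  have h2 : ({r | ∃ q u o v, (q, u, o, v) ∈ R0 ∧
      r = (some (some q), u, o.map (fun q => some (some q)), v)} :
      Set (Option (Option Q0) × List ℕ × Option (Option (Option Q0)) × List ℕ)).Finite := by
    refine (hR0.image (fun r => (some (some r.1), r.2.1, r.2.2.1.map (fun q => some (some q)),
      r.2.2.2))).subset ?_
    rintro _ ⟨q, u, o, v, h, rfl⟩
    exact ⟨_, h, rfl⟩
  have h3 : ({r | ∃ x, x < m ∧ (r = (some none, [x], some (some none), []) ∨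
      r = (some none, [x], none, []))} :
      Set (Option (Option Q0) × List ℕ × Option (Option (Option Q0)) × List ℕ)).Finite := by
    refine (((Set.finite_Iio m).image (fun x => (some none, [x], some (some none), []))).union
      ((Set.finite_Iio m).image (fun x => (some none, [x], none, [])))).subset ?_
    rintro _ ⟨x, hx, rfl | rfl⟩
    · exact Or.inl ⟨x, hx, rfl⟩
    · exact Or.inr ⟨x, hx, rfl⟩
  have h4 : ({(none, [m], none, []), (none, pp m, none, []),
      (none, pp m, some (some (some s0)), [])} :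
      Set (Option (Option Q0) × List ℕ × Option (Option (Option Q0)) × List ℕ)).Finite :=
    Set.toFinite _
  refine (h1.union (h2.union (h3.union h4))).subset ?_
  rintro r (h | h | h | h | h | h)
  · exact Or.inl h
  · exact Or.inr (Or.inr (Or.inr (Or.inl h)))
  · exact Or.inr (Or.inr (Or.inr (Or.inr (Or.inl h))))
  · exact Or.inr (Or.inr (Or.inr (Or.inr (Or.inr h))))
  · exact Or.inr (Or.inl h)
  · exact Or.inr (Or.inr (Or.inl h))

/-- right-hand sides of the variable productions -/
def eprods (l : List (List ℕ)) : List (ℕ × List ℕ) :=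
  l.flatMap (fun u => [(m + 1, pp m ++ u), (m + 1, pp m ++ u ++ [m + 2])])

/-- the fixed productions -/
noncomputable def fixedP (hR0 : R0.Finite) : List (ℕ × List ℕ) :=
  ((RF_finite m s0 R0 hR0).image (encR (eN m e0))).toFinset.toList

/-- the nonterminals -/
noncomputable def nts [Finite Q0] : List ℕ := (Set.finite_range (eN m e0)).toFinset.toList

/-- the grammar with the start words in `l` -/
noncomputable def gram [Finite Q0] (hR0 : R0.Finite) (l : List (List ℕ)) : Gram :=
  (nts m e0, List.range (m + 1), m + 1, fixedP m e0 s0 R0 hR0 ++ eprods m l)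

variable {m e0 s0 R0} [Finite Q0] (hR0 : R0.Finite) (l : List (List ℕ))

theorem mem_N (x : ℕ) : x ∈ (gram m e0 s0 R0 hR0 l).N ↔ ∃ q, eN m e0 q = x := by
  change x ∈ nts m e0 ↔ _
  simp [nts]

theorem mem_T (x : ℕ) : x ∈ (gram m e0 s0 R0 hR0 l).T ↔ x < m + 1 := by
  change x ∈ List.range (m + 1) ↔ _
  simp

theorem lt_eN (q : Option (Option Q0)) : m < eN m e0 q := by
  rcases q with _ | _ | q <;> simp only [eN] <;> omega

theorem mem_fixedP (p : ℕ × List ℕ) :
    p ∈ fixedP m e0 s0 R0 hR0 ↔ ∃ r ∈ RF m s0 R0, encR (eN m e0) r = p := by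
  simp [fixedP]

theorem mem_eprods (p : ℕ × List ℕ) :
    p ∈ eprods m l ↔ ∃ r ∈ RE m (Q0 := Q0) l, encR (eN m e0) r = p := by
  simp only [eprods, List.mem_flatMap, List.mem_cons, List.not_mem_nil, or_false, RE]
  constructor
  · rintro ⟨u, hu, rfl | rfl⟩
    · exact ⟨_, ⟨u, hu, Or.inl rfl⟩, by simp [encR, eN]⟩
    · exact ⟨_, ⟨u, hu, Or.inr rfl⟩, by simp [encR, eN]⟩
  · rintro ⟨_, ⟨u, hu, rfl | rfl⟩, rfl⟩
    · exact ⟨u, hu, Or.inl (by simp [encR, eN])⟩
    · exact ⟨u, hu, Or.inr (by simp [encR, eN])⟩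

theorem mem_P (p : ℕ × List ℕ) : p ∈ (gram m e0 s0 R0 hR0 l).P ↔
    ∃ r ∈ RF m s0 R0 ∪ RE m l, encR (eN m e0) r = p := by
  change p ∈ fixedP m e0 s0 R0 hR0 ++ eprods m l ↔ _
  rw [List.mem_append, mem_fixedP, mem_eprods (e0 := e0)]
  constructor
  · rintro (⟨r, hr, h⟩ | ⟨r, hr, h⟩)
    · exact ⟨r, Or.inl hr, h⟩
    · exact ⟨r, Or.inr hr, h⟩
  · rintro ⟨r, hr | hr, h⟩
    · exact Or.inl ⟨r, hr, h⟩
    · exact Or.inr ⟨r, hr, h⟩

/-- conditions on the data -/
structure Ok (m : ℕ) (R0 : Set (Q0 × List ℕ × Option Q0 × List ℕ)) : Prop where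
  nonempty : ∀ q u v, (q, u, none, v) ∈ R0 → u ++ v ≠ []
  lt : ∀ q u o v, (q, u, o, v) ∈ R0 → ∀ x, x ∈ u ∨ x ∈ v → x < m

variable (hok : Ok m R0) (hl : ∀ u ∈ l, ∀ x ∈ u, x < m)

include hok hl in
theorem letters : ∀ r ∈ RF m s0 R0 ∪ RE m l, ∀ x, x ∈ r.2.1 ∨ x ∈ r.2.2.2 → x < m + 1 := by
  have hpp : ∀ x ∈ pp m, x < m + 1 := by
    intro x hx
    have := List.eq_of_mem_replicate hx
    omega
  rintro r ((⟨i, hi, rfl⟩ | rfl | rfl | rfl | ⟨q, u, o, v, h, rfl⟩ | ⟨y, hy, rfl | rfl⟩) |
    ⟨u, hu, rfl | rfl⟩) x hx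
  · simp only [mk, List.mem_append, List.mem_replicate, List.mem_singleton, List.not_mem_nil,
      or_false] at hx
    rcases hx with ⟨_, rfl⟩ | rfl <;> omega
  · simp only [List.mem_singleton, List.not_mem_nil, or_false] at hx
    omega
  · exact hpp x (by simpa using hx)
  · exact hpp x (by simpa using hx)
  · have := hok.lt _ _ _ _ h x hx
    omega
  · simp only [List.mem_singleton, List.not_mem_nil, or_false] at hx
    omega
  · simp only [List.mem_singleton, List.not_mem_nil, or_false] at hx
    omega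
  · simp only [List.mem_append, List.not_mem_nil, or_false] at hx
    rcases hx with hx | hx
    · exact hpp x hx
    · have := hl u hu x hx; omega
  · simp only [List.mem_append, List.not_mem_nil, or_false] at hx
    rcases hx with hx | hx
    · exact hpp x hx
    · have := hl u hu x hx; omega

theorem pp_ne : pp m ≠ [] := by simp [pp]

include hok hl in
theorem gram_ok : (gram m e0 s0 R0 hR0 l).IsCFG := by
  refine ⟨?_, ?_, ?_⟩
  · intro x hx hx'
    rw [mem_T] at hx'
    obtain ⟨q, rfl⟩ := (mem_N hR0 l x).1 hx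
    have := lt_eN (m := m) (e0 := e0) q
    omega
  · exact (mem_N hR0 l _).2 ⟨none, rfl⟩
  · intro p hp
    obtain ⟨r, hr, rfl⟩ := (mem_P hR0 l p).1 hp
    refine ⟨(mem_N hR0 l _).2 ⟨r.1, rfl⟩, ?_, ?_⟩
    · rcases hr with (⟨i, hi, rfl⟩ | rfl | rfl | rfl | ⟨q, u, o, v, h, rfl⟩ |
        ⟨y, hy, rfl | rfl⟩) | ⟨u, hu, rfl | rfl⟩
      · simp [encR, mk]
      · simp [encR]
      · simp [encR, pp_ne]
      · simp [encR, pp_ne]
      · cases o with
        | none =>
          have := hok.nonempty _ _ _ h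
          simpa [encR] using this
        | some q' => simp [encR]
      · simp [encR]
      · simp [encR]
      · simp [encR, pp_ne]
      · simp [encR, pp_ne]
    · intro x hx
      simp only [encR, List.mem_append, List.mem_map] at hx
      rcases hx with (hx | ⟨q, _, rfl⟩) | hx
      · right; rw [mem_T]; exact letters l hok hl r hr x (Or.inl hx)
      · left; exact (mem_N hR0 l _).2 ⟨q, rfl⟩
      · right; rw [mem_T]; exact letters l hok hl r hr x (Or.inr hx)

include hok hl in
theorem gram_linear : (gram m e0 s0 R0 hR0 l).IsLinear := by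
  intro p hp
  obtain ⟨r, hr, rfl⟩ := (mem_P hR0 l p).1 hp
  have hlet := letters l hok hl r hr
  simp only [encR, List.countP_append]
  have h0 : ∀ u : List ℕ, (∀ x ∈ u, x < m + 1) →
      List.countP (fun x => decide (x ∈ (gram m e0 s0 R0 hR0 l).N)) u = 0 := by
    intro u hu
    rw [List.countP_eq_zero]
    intro x hx
    simp only [decide_eq_true_eq]
    intro h
    obtain ⟨q, rfl⟩ := (mem_N hR0 l x).1 h
    have h1 := lt_eN (m := m) (e0 := e0) q
    have h2 := hu _ hx
    omega
  rw [h0 r.2.1 (fun x hx => hlet x (Or.inl hx)), h0 r.2.2.2 (fun x hx => hlet x (Or.inr hx))]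
  refine (Nat.add_zero _).le.trans ?_
  rw [Nat.zero_add]
  refine List.countP_le_length.trans ?_
  rcases r.2.2.1 with _ | q <;> simp

include hok hl in
theorem gram_language (he0 : Function.Injective e0) :
    (gram m e0 s0 R0 hR0 l).language = {w | LDer (RF m s0 R0 ∪ RE m l) none w} := by
  refine lin_language _ (gram_ok hR0 l hok hl) (eN m e0) (eN_inj m e0 he0)
    (fun q => (mem_N hR0 l _).2 ⟨q, rfl⟩) _ (mem_P hR0 l) ?_ none rfl
  intro r hr x hx
  rw [mem_T]
  exact letters l hok hl r hr x hx

/-- derivations from the states of the fixed system -/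
theorem lder_some (q : Q0) (w : List ℕ) :
    LDer (RF m s0 R0 ∪ RE m l) (some (some q)) w ↔ LDer R0 q w := by
  constructor
  · intro h
    refine LDer.map_inv (fun q => some (some q)) ?_ h q rfl
    rintro q u o v ((⟨i, hi, h⟩ | h | h | h | ⟨q', u', o', v', h', h⟩ | ⟨y, hy, h | h⟩) |
      ⟨u', hu, h | h⟩)
    · simp at h
    · simp at h
    · simp at h
    · simp at h
    · simp only [Prod.mk.injEq, Option.some.injEq] at h
      obtain ⟨rfl, rfl, rfl, rfl⟩ := h
      exact ⟨o', rfl, h'⟩
    · simp at h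
    · simp at h
    · simp at h
    · simp at h
  · intro h
    exact LDer.map (fun q => some (some q)) (fun q u o v h => Or.inl (Or.inr (Or.inr (Or.inr
      (Or.inr (Or.inl ⟨q, u, o, v, h, rfl⟩)))))) h

/-- derivations from the universal state -/
theorem lder_univ (w : List ℕ) :
    LDer (RF m s0 R0 ∪ RE m l) (some none) w ↔ w ≠ [] ∧ ∀ x ∈ w, x < m := by
  have hrules : ∀ u o v, (some none, u, o, v) ∈ RF m s0 R0 ∪ RE m l →
      ∃ x, x < m ∧ u = [x] ∧ v = [] ∧ (o = none ∨ o = some (some none)) := by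
    rintro u o v ((⟨i, hi, h⟩ | h | h | h | ⟨q', u', o', v', h', h⟩ | ⟨y, hy, h | h⟩) |
      ⟨u', hu, h | h⟩)
    · simp at h
    · simp at h
    · simp at h
    · simp at h
    · simp at h
    · simp only [Prod.mk.injEq, true_and] at h
      exact ⟨y, hy, h.1, h.2.2, Or.inr h.2.1⟩
    · simp only [Prod.mk.injEq, true_and] at h
      exact ⟨y, hy, h.1, h.2.2, Or.inl h.2.1⟩
    · simp at h
    · simp at h
  constructor
  · intro h
    generalize hq : (some none : Option (Option Q0)) = q at h
    induction h with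
    | base h =>
      subst hq
      obtain ⟨x, hx, rfl, rfl, _⟩ := hrules _ _ _ h
      simpa using hx
    | step h _ ih =>
      subst hq
      obtain ⟨x, hx, rfl, rfl, ho⟩ := hrules _ _ _ h
      rcases ho with ho | ho
      · simp at ho
      · obtain ⟨-, h2⟩ := ih (Option.some.inj ho).symm
        refine ⟨by simp, ?_⟩
        intro y hy
        simp only [List.cons_append, List.nil_append, List.append_nil, List.mem_cons] at hy
        rcases hy with rfl | hy
        · exact hx
        · exact h2 y hy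
  · rintro ⟨h1, h2⟩
    induction w with
    | nil => exact absurd rfl h1
    | cons x w ih =>
      have hx : x < m := h2 x List.mem_cons_self
      cases w with
      | nil =>
        have : LDer (RF m s0 R0 ∪ RE m l) (some none) ([x] ++ []) :=
          LDer.base (Or.inl (Or.inr (Or.inr (Or.inr (Or.inr (Or.inr ⟨x, hx, Or.inr rfl⟩))))))
        simpa using this
      | cons y w =>
        have h3 := ih (by simp) (fun z hz => h2 z (List.mem_cons_of_mem _ hz))
        have : LDer (RF m s0 R0 ∪ RE m l) (some none) ([x] ++ (y :: w) ++ []) :=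
          LDer.step (Or.inl (Or.inr (Or.inr (Or.inr (Or.inr (Or.inr ⟨x, hx, Or.inl rfl⟩)))))) h3
        simpa using this

include hok hl in
/-- The language of the grammar. -/
theorem mem_language (he0 : Function.Injective e0) (w : List ℕ) :
    w ∈ (gram m e0 s0 R0 hR0 l).language ↔ (∃ i < m, w = mk m i) ∨ w = [m] ∨
      ∃ w', w = pp m ++ w' ∧ (w' = [] ∨ LDer R0 s0 w' ∨
        ∃ u ∈ l, ∃ v, (∀ x ∈ v, x < m) ∧ w' = u ++ v) := by
  rw [gram_language hR0 l hok hl he0]
  simp only [Set.mem_ofPred_eq]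
  constructor
  · intro h
    cases h with
    | base h =>
      rcases h with (⟨i, hi, h⟩ | h | h | h | ⟨q', u', o', v', h', h⟩ | ⟨y, hy, h | h⟩) |
        ⟨u', hu, h | h⟩
      · simp only [Prod.mk.injEq, true_and] at h
        obtain ⟨rfl, rfl⟩ := h
        exact Or.inl ⟨i, hi, by simp⟩
      · simp only [Prod.mk.injEq, true_and] at h
        obtain ⟨rfl, rfl⟩ := h
        exact Or.inr (Or.inl (by simp))
      · simp only [Prod.mk.injEq, true_and] at h
        obtain ⟨rfl, rfl⟩ := h
        exact Or.inr (Or.inr ⟨[], by simp, Or.inl rfl⟩)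
      · simp at h
      · simp at h
      · simp at h
      · simp at h
      · simp only [Prod.mk.injEq, true_and] at h
        obtain ⟨rfl, rfl⟩ := h
        exact Or.inr (Or.inr ⟨u', by simp, Or.inr (Or.inr ⟨u', hu, [], by simp, by simp⟩)⟩)
      · simp at h
    | @step _ q' u v w h hd =>
      rcases h with (⟨i, hi, h⟩ | h | h | h | ⟨q', u', o', v', h', h⟩ | ⟨y, hy, h | h⟩) |
        ⟨u', hu, h | h⟩
      · simp at h
      · simp at h
      · simp at h
      · simp only [Prod.mk.injEq, true_and, Option.some.injEq] at h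
        obtain ⟨rfl, rfl, rfl⟩ := h
        exact Or.inr (Or.inr ⟨w, by simp, Or.inr (Or.inl ((lder_some l _ _).1 hd))⟩)
      · simp at h
      · simp at h
      · simp at h
      · simp at h
      · simp only [Prod.mk.injEq, true_and, Option.some.injEq] at h
        obtain ⟨rfl, rfl, rfl⟩ := h
        obtain ⟨-, h2⟩ := (lder_univ l w).1 hd
        exact Or.inr (Or.inr ⟨u' ++ w, by simp, Or.inr (Or.inr ⟨u', hu, w, h2, rfl⟩)⟩)
  · rintro (⟨i, hi, rfl⟩ | rfl | ⟨w', rfl, rfl | h | ⟨u, hu, v, hv, rfl⟩⟩)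
    · have : LDer (RF m s0 R0 ∪ RE m l) none (mk m i ++ []) :=
        LDer.base (Or.inl (Or.inl ⟨i, hi, rfl⟩))
      simpa using this
    · have : LDer (RF m s0 R0 ∪ RE m l) none ([m] ++ []) :=
        LDer.base (Or.inl (Or.inr (Or.inl rfl)))
      simpa using this
    · exact LDer.base (Or.inl (Or.inr (Or.inr (Or.inl rfl))))
    · have : LDer (RF m s0 R0 ∪ RE m l) none (pp m ++ w' ++ []) :=
        LDer.step (Or.inl (Or.inr (Or.inr (Or.inr (Or.inl rfl))))) ((lder_some l _ _).2 h)
      simpa using this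
    · by_cases hv0 : v = []
      · subst hv0
        have : LDer (RF m s0 R0 ∪ RE m l) none ((pp m ++ u) ++ []) :=
          LDer.base (Or.inr ⟨u, hu, Or.inl rfl⟩)
        simpa using this
      · have : LDer (RF m s0 R0 ∪ RE m l) none ((pp m ++ u) ++ v ++ []) :=
          LDer.step (Or.inr ⟨u, hu, Or.inr rfl⟩) ((lder_univ l v).2 ⟨hv0, hv⟩)
        simpa using this

include hok in
/-- The absorption lemma for the grammars `gram l`. -/
theorem gram_absorb (he0 : Function.Injective e0) (l' : List (List ℕ))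
    (hl : ∀ u ∈ l, ∀ x ∈ u, x < m) (hl' : ∀ u ∈ l', ∀ x ∈ u, x < m)
    (h : ∀ u ∈ l, ∀ v : List ℕ, (∀ x ∈ v, x < m) →
      pp m ++ (u ++ v) ∈ (gram m e0 s0 R0 hR0 l').language) :
    family (gram m e0 s0 R0 hR0 l) ⊆ family (gram m e0 s0 R0 hR0 l') := by
  have hG := gram_ok (e0 := e0) (s0 := s0) hR0 l hok hl
  have hH := gram_ok (e0 := e0) (s0 := s0) hR0 l' hok hl'
  refine family_subset (U := m + 2) (Al := Finset.range m) hG hH ?_
  have hfix : ∀ p, p ∈ fixedP m e0 s0 R0 hR0 → p ∈ (gram m e0 s0 R0 hR0 l').P :=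
    fun p hp => List.mem_append_left _ hp
  have hppne : ∀ y ∈ pp m, y ∉ (gram m e0 s0 R0 hR0 l).N := by
    intro y hy hyN
    have h1 := List.eq_of_mem_replicate hy
    obtain ⟨q, hq⟩ := (mem_N hR0 l y).1 hyN
    have := lt_eN (m := m) (e0 := e0) q
    omega
  have hune : ∀ u ∈ l, ∀ y ∈ u, y ∉ (gram m e0 s0 R0 hR0 l).N := by
    intro u hu y hy hyN
    have h1 := hl u hu y hy
    obtain ⟨q, hq⟩ := (mem_N hR0 l y).1 hyN
    have := lt_eN (m := m) (e0 := e0) q
    omega
  have hpp1 : pp m = m :: List.replicate (m + 1) m := by simp [pp, List.replicate_succ]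
  refine ⟨rfl, rfl, rfl, ?_, ?_, ?_, ?_, ?_, ?_, ?_⟩
  · change m + 2 ≠ m + 1
    omega
  · exact (mem_N hR0 l _).2 ⟨some none, rfl⟩
  · intro A β hp hA
    rcases List.mem_append.1 hp with hp | hp
    · exact hfix _ hp
    · exfalso
      obtain ⟨r, ⟨u, hu, hr⟩, he⟩ := (mem_eprods (e0 := e0) l _).1 hp
      apply hA
      have h1 := congrArg Prod.fst he
      rcases hr with rfl | rfl
      · exact h1.symm
      · exact h1.symm
  · intro A β hp hS
    obtain ⟨r, hr, he⟩ := (mem_P hR0 l _).1 hp
    have h2 : (encR (eN m e0) r).2 = β := congrArg Prod.snd he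
    rw [← h2] at hS
    change m + 1 ∈ _ at hS
    simp only [encR, List.mem_append, List.mem_map] at hS
    rcases hS with (hS | ⟨q, hq, hS⟩) | hS
    · have := letters l hok hl r hr _ (Or.inl hS); omega
    · have hqn : q = none := by
        rcases q with _ | _ | q
        · rfl
        · simp only [eN] at hS; omega
        · simp only [eN] at hS; omega
      subst hqn
      rcases hr with (⟨i, hi, rfl⟩ | rfl | rfl | rfl | ⟨q', u', o', v', h', rfl⟩ |
        ⟨y, hy, rfl | rfl⟩) | ⟨u', hu, rfl | rfl⟩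
      · simp at hq
      · simp at hq
      · simp at hq
      · simp at hq
      · rcases o' with _ | o' <;> simp at hq
      · simp at hq
      · simp at hq
      · simp at hq
      · simp at hq
    · have := letters l hok hl r hr _ (Or.inr hS); omega
  · intro β hp
    obtain ⟨r, hr, he⟩ := (mem_P hR0 l _).1 hp
    have h1 : eN m e0 r.1 = m + 2 := congrArg Prod.fst he
    have h2 : (encR (eN m e0) r).2 = β := congrArg Prod.snd he
    rcases hr with (⟨i, hi, rfl⟩ | rfl | rfl | rfl | ⟨q', u', o', v', h', rfl⟩ |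
        ⟨y, hy, rfl | rfl⟩) | ⟨u', hu, rfl | rfl⟩
    · simp [eN] at h1
    · simp [eN] at h1
    · simp [eN] at h1
    · simp [eN] at h1
    · simp only [eN] at h1; omega
    · refine ⟨y, Finset.mem_range.2 hy, Or.inr ?_⟩
      rw [← h2]; simp [encR, eN]
    · refine ⟨y, Finset.mem_range.2 hy, Or.inl ?_⟩
      rw [← h2]; simp [encR]
    · simp [eN] at h1
    · simp [eN] at h1
  · intro β hp hp'
    rcases List.mem_append.1 hp with hp | hp
    · exact absurd (hfix _ hp) hp'
    · simp only [eprods, List.mem_flatMap, List.mem_cons, List.not_mem_nil, or_false] at hp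
      obtain ⟨u, hu, hβ⟩ := hp
      refine ⟨m, List.replicate (m + 1) m ++ u, ?_, ?_, ?_⟩
      · intro y hy
        rw [← List.cons_append, ← hpp1, List.mem_append] at hy
        rcases hy with hy | hy
        · exact hppne y hy
        · exact hune u hu y hy
      · rcases hβ with hβ | hβ
        · left
          have h5 : β = pp m ++ u := congrArg Prod.snd hβ
          rw [h5, hpp1]; simp
        · right
          have h5 : β = pp m ++ u ++ [m + 2] := congrArg Prod.snd hβ
          rw [h5, hpp1]; simp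
      · intro v hv _
        have h3 := h u hu v (fun x hx => Finset.mem_range.1 (hv x hx))
        rw [hpp1] at h3
        simpa using h3
  · intro x hx
    rw [mem_T]
    have := Finset.mem_range.1 hx
    omega

include hok in
/-- Equality of the families forces equality of the languages. -/
theorem of_family_eq (he0 : Function.Injective e0) (hl : ∀ u ∈ l, ∀ x ∈ u, x < m)
    (h : family (gram m e0 s0 R0 hR0 [[]]) = family (gram m e0 s0 R0 hR0 l)) :
    ∀ w' : List ℕ, (∀ x ∈ w', x < m) → w' = [] ∨ LDer R0 s0 w' ∨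
      ∃ u ∈ l, ∃ v, (∀ x ∈ v, x < m) ∧ w' = u ++ v := by
  intro w' hw'
  have hl0 : ∀ u ∈ ([[]] : List (List ℕ)), ∀ x ∈ u, x < m := by simp
  have hG := gram_ok (e0 := e0) (s0 := s0) hR0 [[]] hok hl0
  have hH := gram_ok (e0 := e0) (s0 := s0) hR0 l hok hl
  have h1 := language_mem_family hG
  rw [h] at h1
  obtain ⟨τ, hτ⟩ := fam_gen hH h1
  have h2 := gen_map hH hτ
  have hlen : ∀ w, w ∈ (gram m e0 s0 R0 hR0 l).language → w.length ≤ m + 1 →
      w = [m] ∨ ∃ i < m, w = mk m i := by
    intro w hw hlen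
    rw [mem_language hR0 l hok hl he0] at hw
    rcases hw with hw | hw | ⟨w', rfl, _⟩
    · exact Or.inr hw
    · exact Or.inl hw
    · exfalso
      simp only [pp, List.length_append, List.length_replicate] at hlen
      omega
  have hm : τ m = m := by
    have h3 := h2 [m] ((mem_language hR0 [[]] hok hl0 he0 _).2 (Or.inr (Or.inl rfl)))
    rcases hlen _ h3 (by simp) with h4 | ⟨i, hi, h4⟩
    · simpa using h4
    · exfalso
      have := congrArg List.length h4
      simp [mk] at this
  have hi : ∀ i < m, τ i = i := by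
    intro i hi
    have h3 := h2 (mk m i) ((mem_language hR0 [[]] hok hl0 he0 _).2 (Or.inl ⟨i, hi, rfl⟩))
    rcases hlen _ h3 (by simp only [mk, List.length_map, List.length_append,
      List.length_replicate, List.length_singleton]; omega) with h4 | ⟨j, hj, h4⟩
    · exfalso
      have := congrArg List.length h4
      simp [mk] at this
    · have hij : i = j := by
        have := congrArg List.length h4
        simp only [mk, List.length_map, List.length_append, List.length_replicate,
          List.length_singleton] at this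
        omega
      subst hij
      simp only [mk, List.map_append, List.map_replicate, List.map_cons, List.map_nil] at h4
      have := (List.append_inj' h4 rfl).2
      simpa using this
  have h3 := h2 (pp m ++ w') ((mem_language hR0 [[]] hok hl0 he0 _).2 (Or.inr (Or.inr
    ⟨w', rfl, Or.inr (Or.inr ⟨[], by simp, w', hw', by simp⟩)⟩)))
  have h4 : (pp m ++ w').map τ = pp m ++ w' := by
    conv_rhs => rw [← List.map_id (pp m ++ w')]
    apply List.map_congr_left
    intro x hx
    rw [List.mem_append] at hx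
    rcases hx with hx | hx
    · have := List.eq_of_mem_replicate hx
      rw [this]; exact hm
    · exact hi x (hw' x hx)
  rw [h4, mem_language hR0 l hok hl he0] at h3
  rcases h3 with ⟨i, hi', h3⟩ | h3 | ⟨w'', h3, h5⟩
  · exfalso
    have := congrArg List.length h3
    simp only [pp, mk, List.length_append, List.length_replicate, List.length_singleton] at this
    omega
  · exfalso
    have := congrArg List.length h3
    simp only [pp, List.length_append, List.length_replicate, List.length_singleton] at this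
    omega
  · rw [List.append_cancel_left h3]
    exact h5

include hok in
theorem gram_subset (he0 : Function.Injective e0) (hl : ∀ u ∈ l, ∀ x ∈ u, x < m) :
    family (gram m e0 s0 R0 hR0 l) ⊆ family (gram m e0 s0 R0 hR0 [[]]) := by
  have hl0 : ∀ u ∈ ([[]] : List (List ℕ)), ∀ x ∈ u, x < m := by simp
  apply gram_absorb hR0 l hok he0 [[]] hl hl0
  intro u hu v hv
  rw [mem_language hR0 [[]] hok hl0 he0]
  refine Or.inr (Or.inr ⟨u ++ v, rfl, Or.inr (Or.inr ⟨[], by simp, u ++ v, ?_, by simp⟩)⟩)
  intro x hx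
  rcases List.mem_append.1 hx with hx | hx
  · exact hl u hu x hx
  · exact hv x hx

include hok in
/-- The criterion. -/
theorem family_eq_iff (he0 : Function.Injective e0) (hl : ∀ u ∈ l, ∀ x ∈ u, x < m) :
    family (gram m e0 s0 R0 hR0 [[]]) = family (gram m e0 s0 R0 hR0 l) ↔
    ∀ w' : List ℕ, (∀ x ∈ w', x < m) → w' = [] ∨ LDer R0 s0 w' ∨
      ∃ u ∈ l, ∃ v, (∀ x ∈ v, x < m) ∧ w' = u ++ v := by
  have hl0 : ∀ u ∈ ([[]] : List (List ℕ)), ∀ x ∈ u, x < m := by simp
  refine ⟨of_family_eq hR0 l hok he0 hl, fun h => Set.Subset.antisymm ?_ ?_⟩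
  · apply gram_absorb hR0 [[]] hok he0 l hl0 hl
    intro u hu v hv
    have hu0 : u = [] := by simpa using hu
    subst hu0
    rw [mem_language hR0 l hok hl he0]
    exact Or.inr (Or.inr ⟨v, by simp, h v hv⟩)
  · exact gram_subset hR0 l hok he0 hl

end

end Pool.Agent.W901.GF
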