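import Pool.Agent.Helper230.GFGen

/-!
Context-free grammars given by lists of natural numbers, interpretations and grammatical families.
-/

set_option autoImplicit false

namespace Pool.Agent.W901.GF

open Pool.Agent.Helper230

/-- The data of a grammar: the list of nonterminals, the list of terminals, the start symbol and
the list of productions (the pair `(A, β)` is the production `A → β`). Letters are natural
numbers. -/
abbrev Gram : Type := List ℕ × List ℕ × ℕ × List (ℕ × List ℕ)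

namespace Gram

/-- nonterminals -/
def N (G : Gram) : List ℕ := G.1

/-- terminals -/
def T (G : Gram) : List ℕ := G.2.1

/-- start symbol -/
def S (G : Gram) : ℕ := G.2.2.1

/-- productions -/
def P (G : Gram) : List (ℕ × List ℕ) := G.2.2.2

/-- The data `G` form a context-free grammar without productions `A → λ`. -/
structure IsCFG (G : Gram) : Prop where
  disj : ∀ x ∈ G.N, x ∉ G.T
  start_mem : G.S ∈ G.N
  wf : ∀ p ∈ G.P, p.1 ∈ G.N ∧ p.2 ≠ [] ∧ ∀ x ∈ p.2, x ∈ G.N ∨ x ∈ G.T

/-- The grammar is linear: right-hand sides contain at most one nonterminal. -/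
def IsLinear (G : Gram) : Prop :=
  ∀ p ∈ G.P, p.2.countP (fun x => decide (x ∈ G.N)) ≤ 1

/-- One derivation step. -/
def Step (G : Gram) (u v : List ℕ) : Prop :=
  ∃ (l r : List ℕ) (A : ℕ) (β : List ℕ), (A, β) ∈ G.P ∧ u = l ++ A :: r ∧ v = l ++ β ++ r

/-- The language of the grammar. -/
def language (G : Gram) : Set (List ℕ) :=
  {w | (∀ x ∈ w, x ∈ G.T) ∧ Relation.ReflTransGen G.Step [G.S] w}

end Gram

/-- `G'` is the interpretation of `G` given by the assignment `σ` of finite sets of letters to the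
letters of `G`. -/
structure IsInterpretation (G' G : Gram) (σ : ℕ → Finset ℕ) : Prop where
  disjoint : ∀ x y, (x ∈ G.N ∨ x ∈ G.T) → (y ∈ G.N ∨ y ∈ G.T) → x ≠ y → Disjoint (σ x) (σ y)
  nonterminals : ∀ x, x ∈ G'.N ↔ ∃ A ∈ G.N, x ∈ σ A
  terminals : ∀ x, x ∈ G'.T ↔ ∃ a ∈ G.T, x ∈ σ a
  start : G'.S ∈ σ G.S
  productions : ∀ p ∈ G'.P, ∃ q ∈ G.P,
    p.1 ∈ σ q.1 ∧ List.Forall₂ (fun x' x => x' ∈ σ x) p.2 q.2

/-- The grammatical family of `G`: the languages of all interpretations of `G`. -/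
def family (G : Gram) : Set (Set (List ℕ)) :=
  {L | ∃ (G' : Gram) (σ : ℕ → Finset ℕ), G'.IsCFG ∧ IsInterpretation G' G σ ∧ L = G'.language}

/-! ### Typed interpretations -/

def Gram.dat (G : Gram) (h : G.IsCFG) : GDat where
  N := {x | x ∈ G.N}
  T := {x | x ∈ G.T}
  S := G.S
  P := {p | p ∈ G.P}
  disj := h.disj
  hS := h.start_mem
  wf := fun p hp => ⟨(h.wf p hp).1, (h.wf p hp).2.2⟩

theorem all_ters {Q : Type} {T' : List ℕ} (e : Q → ℕ) (he : ∀ q, e q ∉ T')
    (U : List (Q ⊕ ℕ)) (hw : ∀ x ∈ U.map (Sum.elim e id), x ∈ T') :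
    U = (U.map (Sum.elim e id)).map Sum.inr := by
  induction U with
  | nil => rfl
  | cons x U ih =>
    have ih' := ih (fun y hy => hw y (by rw [List.map_cons]; exact List.mem_cons_of_mem _ hy))
    cases x with
    | inl q => exact absurd (hw (e q) (by simp)) (he q)
    | inr x =>
      rw [List.map_cons, List.map_cons, ← ih']
      rfl

theorem lang_eq (G' : Gram) (hG' : G'.IsCFG) {Q : Type} (e : Q → ℕ)
    (R : Set (Q × List (Q ⊕ ℕ))) (s : Q)
    (hs : G'.S = e s) (he : ∀ q, e q ∈ G'.N)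
    (h1 : ∀ q β, (q, β) ∈ R → (e q, β.map (Sum.elim e id)) ∈ G'.P ∧
      ∀ x, Sum.inr x ∈ β → x ∈ G'.T)
    (h2 : ∀ q γ, (e q, γ) ∈ G'.P → ∃ β, (q, β) ∈ R ∧ γ = β.map (Sum.elim e id)) :
    G'.language = {w | Der (ExR R) [Sum.inl s] w} := by
  ext w
  constructor
  · rintro ⟨hw, hd⟩
    have key : ∀ u, Relation.ReflTransGen G'.Step u w → ∀ U : List (Q ⊕ ℕ),
        u = U.map (Sum.elim e id) → (∀ x, Sum.inr x ∈ U → x ∈ G'.T) → Der (ExR R) U w := by
      intro u hu
      induction hu using Relation.ReflTransGen.head_induction_on with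
      | refl =>
        intro U hU _
        have : U = w.map Sum.inr := by
          subst hU
          exact all_ters (T' := G'.T) e (fun q => hG'.disj _ (he q)) U hw
        rw [this]
        exact Der.of_ters w
      | head hstep _ ih =>
        intro U hU hT
        obtain ⟨l, r, A, β, hA, rfl, rfl⟩ := hstep
        obtain ⟨U1, U2, rfl, h3, h4⟩ := List.map_eq_append_iff.1 hU.symm
        obtain ⟨x, U3, rfl, h5, h6⟩ := List.map_eq_cons_iff.1 h4
        cases x with
        | inr x =>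
          exfalso
          have h7 : x = A := h5
          subst h7
          exact hG'.disj _ (hG'.wf _ hA).1 (hT x (by simp))
        | inl q =>
          have h7 : e q = A := h5
          subst h7
          obtain ⟨β0, hβ0, rfl⟩ := h2 q β hA
          have h8 := ih (U1 ++ β0 ++ U3) (by simp [h3, h6]) (by
            intro x hx
            rw [List.mem_append, List.mem_append] at hx
            rcases hx with (hx | hx) | hx
            · exact hT x (List.mem_append_left _ hx)
            · exact (h1 _ _ hβ0).2 x hx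
            · exact hT x (List.mem_append_right _ (List.mem_cons_of_mem _ hx)))
          exact Der.of_step ⟨U1, U3, q, β0, rfl, hβ0, rfl⟩ h8
    exact key _ hd [Sum.inl s] (by simp [hs]) (by simp)
  · rintro hd
    have hd' := (rtg_iff_Der _ _).2 hd
    obtain ⟨n, hn⟩ := hd
    refine ⟨?_, ?_⟩
    · have := DerN_letters (D := G'.T.toFinset)
        (fun r hr x hx => List.mem_toFinset.2 ((h1 r.1 r.2 hr).2 x hx)) hn (by simp)
      exact fun x hx => List.mem_toFinset.1 (this x hx)
    · have h3 : ∀ u v, Step (ExR R) u v →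
          G'.Step (u.map (Sum.elim e id)) (v.map (Sum.elim e id)) := by
        rintro _ _ ⟨pre, suf, q, x, rfl, hx, rfl⟩
        exact ⟨pre.map (Sum.elim e id), suf.map (Sum.elim e id), e q, x.map (Sum.elim e id),
          (h1 _ _ hx).1, by simp, by simp⟩
      have h4 := Relation.ReflTransGen.lift (r := Step (ExR R)) (p := G'.Step)
        (fun u => u.map (Sum.elim e id)) h3 _ _ hd'
      have h5 : (w.map (Sum.inr : ℕ → Q ⊕ ℕ)).map (Sum.elim e id) = w := by
        rw [List.map_map]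
        conv_rhs => rw [← List.map_id w]
        rfl
      simp only [Function.onFun] at h4
      rw [h5] at h4
      simpa [hs] using h4

theorem fam_gen {G : Gram} (hG : G.IsCFG) {L : Set (List ℕ)} (hL : L ∈ family G) :
    ∃ τ : ℕ → ℕ, Gen (G.dat hG) τ L := by
  classical
  obtain ⟨G', σ, hG', hI, rfl⟩ := hL
  have hN : ∀ q : {x // x ∈ G'.N}, ∃ A ∈ G.N, q.1 ∈ σ A := by
    rintro ⟨q, hq⟩
    exact (hI.nonterminals q).1 hq
  choose ν hν1 hν2 using hN
  have hT : ∀ x : ℕ, ∃ t, x ∈ G'.T → t ∈ G.T ∧ x ∈ σ t := by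
    intro x
    by_cases hx : x ∈ G'.T
    · obtain ⟨t, ht, hxt⟩ := (hI.terminals x).1 hx
      exact ⟨t, fun _ => ⟨ht, hxt⟩⟩
    · exact ⟨0, fun h => absurd h hx⟩
  choose τ hτ using hT
  have huniq : ∀ z x y, (x ∈ G.N ∨ x ∈ G.T) → (y ∈ G.N ∨ y ∈ G.T) → z ∈ σ x → z ∈ σ y →
      x = y := by
    intro z x y hx hy h1 h2
    by_contra hne
    exact (Finset.disjoint_left.1 (hI.disjoint x y hx hy hne)) h1 h2
  let e : {x // x ∈ G'.N} → ℕ := Subtype.val
  let R : Set ({x // x ∈ G'.N} × List ({x // x ∈ G'.N} ⊕ ℕ)) :=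
    {r | (e r.1, r.2.map (Sum.elim e id)) ∈ G'.P ∧ ∀ x, Sum.inr x ∈ r.2 → x ∈ G'.T}
  have hfinN : Finite {x // x ∈ G'.N} := by
    have : {x | x ∈ G'.N}.Finite := List.finite_toSet G'.N
    exact this
  refine ⟨τ, {x // x ∈ G'.N}, hfinN, ν, ⟨G'.S, hG'.start_mem⟩, R, G'.T.toFinset, ?_, hν1,
    ?_, ?_, ?_, ?_⟩
  · exact huniq G'.S _ _ (Or.inl (hν1 _)) (Or.inl hG.start_mem)
      (hν2 ⟨G'.S, hG'.start_mem⟩) hI.start
  · intro x hx
    exact (hτ x (List.mem_toFinset.1 hx)).1
  · rintro ⟨q, β⟩ ⟨hr, hx⟩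
    obtain ⟨⟨A, γ⟩, hq, hA, hF⟩ := hI.productions _ hr
    dsimp only at hA hF hx ⊢
    have hwf := hG.wf _ hq
    have h1 : ν q = A := huniq q.1 _ _ (Or.inl (hν1 q)) (Or.inl hwf.1) (hν2 q) hA
    have h2 : β.map (Sum.elim ν τ) = γ := by
      have hγ : ∀ x ∈ γ, x ∈ G.N ∨ x ∈ G.T := fun x hx => hwf.2.2 x hx
      clear hr hq hwf
      induction β generalizing γ with
      | nil =>
        cases γ with
        | nil => rfl
        | cons y γ => simp at hF
      | cons x β ih =>
        cases γ with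
        | nil => simp at hF
        | cons y γ =>
          rw [List.map_cons, List.forall₂_cons] at hF
          rw [List.map_cons, ih (fun y hy => hx y (List.mem_cons_of_mem _ hy)) γ hF.2
            (fun y hy => hγ y (List.mem_cons_of_mem _ hy))]
          congr 1
          cases x with
          | inl q' =>
            exact huniq q'.1 _ _ (Or.inl (hν1 q')) (hγ y List.mem_cons_self)
              (hν2 q') hF.1
          | inr x =>
            have hxT := hx x List.mem_cons_self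
            exact huniq x _ _ (Or.inr (hτ x hxT).1)
              (hγ y List.mem_cons_self) (hτ x hxT).2 hF.1
    rw [h1, h2]
    exact hq
  · rintro ⟨q, β⟩ ⟨_, hx⟩ x h
    exact List.mem_toFinset.2 (hx x h)
  · refine lang_eq G' hG' e R _ rfl (fun q => q.2) (fun q β h => ⟨h.1, h.2⟩) ?_
    intro q γ hγ
    have hwf := (hG'.wf _ hγ).2.2
    let lf : ℕ → {x // x ∈ G'.N} ⊕ ℕ := fun x => if h : x ∈ G'.N then Sum.inl ⟨x, h⟩ else Sum.inr x
    have h1 : (γ.map lf).map (Sum.elim e id) = γ := by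
      rw [List.map_map]
      conv_rhs => rw [← List.map_id γ]
      apply List.map_congr_left
      intro x _
      simp only [Function.comp_apply, lf]
      split_ifs <;> rfl
    refine ⟨γ.map lf, ⟨?_, ?_⟩, h1.symm⟩
    · dsimp only
      rw [h1]; exact hγ
    · intro x hx
      obtain ⟨y, hy, hxy⟩ := List.mem_map.1 hx
      simp only [lf] at hxy
      split_ifs at hxy with h
      have : y = x := by simpa using hxy
      subst this
      rcases hwf y hy with h2 | h2
      · exact absurd h2 h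
      · exact h2

theorem finite_words {α : Type} (E : Set α) (hE : E.Finite) (r : ℕ) :
    {w : List α | (∀ x ∈ w, x ∈ E) ∧ w.length < r}.Finite := by
  have : Finite E := hE
  have h : {w : List α | (∀ x ∈ w, x ∈ E) ∧ w.length < r} ⊆
      (fun w : List E => w.map Subtype.val) '' {w : List E | w.length < r} := by
    rintro w ⟨hw, hr⟩
    refine ⟨w.attach.map (fun x => ⟨x.1, hw x.1 x.2⟩), ?_, ?_⟩
    · simpa using hr
    · simp
  exact Set.Finite.subset (Set.Finite.image _ (List.finite_length_lt E r)) h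

theorem length_bound (P : List (ℕ × List ℕ)) : ∃ n, ∀ p ∈ P, p.2.length < n := by
  induction P with
  | nil => exact ⟨0, by simp⟩
  | cons p P ih =>
    obtain ⟨n, hn⟩ := ih
    refine ⟨n + p.2.length + 1, ?_⟩
    intro q hq
    rcases List.mem_cons.1 hq with rfl | hq
    · omega
    · have := hn q hq; omega

theorem rules_finite {G : Gram} {Q : Type} [Finite Q] {ν : Q → ℕ} {τ : ℕ → ℕ}
    {R : Set (Q × List (Q ⊕ ℕ))} {D : Finset ℕ}
    (hR : ∀ r ∈ R, (ν r.1, r.2.map (Sum.elim ν τ)) ∈ G.P)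
    (hRD : ∀ r ∈ R, ∀ x, Sum.inr x ∈ r.2 → x ∈ D) : R.Finite := by
  obtain ⟨n, hn⟩ := length_bound G.P
  have hE : (Set.range (Sum.inl : Q → Q ⊕ ℕ) ∪ Sum.inr '' (D : Set ℕ)).Finite :=
    (Set.finite_range _).union (Set.Finite.image _ D.finite_toSet)
  refine ((Set.finite_univ (α := Q)).prod (finite_words _ hE n)).subset ?_
  rintro ⟨q, β⟩ hr
  refine ⟨Set.mem_univ _, ?_, ?_⟩
  · intro x hx
    cases x with
    | inl q => exact Or.inl ⟨q, rfl⟩
    | inr x => exact Or.inr ⟨x, hRD _ hr x hx, rfl⟩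
  · have := hn _ (hR _ hr)
    simpa using this

theorem gen_fam {G : Gram} (hG : G.IsCFG) {τ : ℕ → ℕ} {L : Set (List ℕ)}
    (hL : Gen (G.dat hG) τ L) : L ∈ family G := by
  classical
  obtain ⟨Q, hQ, ν, s, R, D, hs, hN, hD, hR, hRD, rfl⟩ := hL
  have : Fintype Q := Fintype.ofFinite Q
  obtain ⟨idx, hidx⟩ := exists_injective_nat Q
  let M : ℕ := D.sup id + 1
  have hM : ∀ x ∈ D, x < M := fun x hx => Nat.lt_succ_of_le (Finset.le_sup (f := id) hx)
  let e : Q → ℕ := fun q => M + idx q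
  have he : Function.Injective e := by
    intro q q' h
    apply hidx
    simp only [e] at h
    omega
  let σ : ℕ → Finset ℕ := fun y =>
    if y ∈ G.N then (Finset.univ.filter (fun q => ν q = y)).image e
    else if y ∈ G.T then D.filter (fun x => τ x = y) else ∅
  have hσN : ∀ y ∈ G.N, ∀ z, z ∈ σ y ↔ (∃ q, ν q = y ∧ e q = z) := by
    intro y hy z
    simp only [σ, if_pos hy, Finset.mem_image, Finset.mem_filter, Finset.mem_univ, true_and]
  have hσT : ∀ y ∈ G.T, ∀ z, z ∈ σ y ↔ (z ∈ D ∧ τ z = y) := by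
    intro y hy z
    have hy' : y ∉ G.N := fun h => hG.disj _ h hy
    simp only [σ, if_neg hy', if_pos hy, Finset.mem_filter]
  have hdisj : ∀ x y, (x ∈ G.N ∨ x ∈ G.T) → (y ∈ G.N ∨ y ∈ G.T) → x ≠ y →
      Disjoint (σ x) (σ y) := by
    intro x y hx hy hne
    rw [Finset.disjoint_left]
    intro z hz1 hz2
    rcases hx with hx | hx <;> rcases hy with hy | hy
    · rw [hσN x hx] at hz1
      rw [hσN y hy] at hz2
      obtain ⟨q, h1, h2⟩ := hz1
      obtain ⟨q', h3, h4⟩ := hz2
      have : q = q' := he (h2.trans h4.symm)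
      subst this
      exact hne (h1.symm.trans h3)
    · rw [hσN x hx] at hz1
      rw [hσT y hy] at hz2
      obtain ⟨q, h1, h2⟩ := hz1
      have := hM _ hz2.1
      simp only [e] at h2; omega
    · rw [hσT x hx] at hz1
      rw [hσN y hy] at hz2
      obtain ⟨q, h1, h2⟩ := hz2
      have := hM _ hz1.1
      simp only [e] at h2; omega
    · rw [hσT x hx] at hz1
      rw [hσT y hy] at hz2
      exact hne (hz1.2.symm.trans hz2.2)
  have hRfin : R.Finite := rules_finite (G := G) hR hRD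
  let e' : Q ⊕ ℕ → ℕ := Sum.elim e id
  have henc : ∀ β : List (Q ⊕ ℕ), (∀ x, Sum.inr x ∈ β → x ∈ D) → ∀ z ∈ β,
      e' z ∈ σ (Sum.elim ν τ z) := by
    intro β hβ z hz
    cases z with
    | inl q =>
      simp only [Sum.elim_inl]
      rw [hσN _ (hN q)]
      exact ⟨q, rfl, rfl⟩
    | inr x =>
      simp only [Sum.elim_inr]
      rw [hσT _ (hD x (hβ x hz))]
      exact ⟨hβ x hz, rfl⟩
  let P' : List (ℕ × List ℕ) :=
    (hRfin.toFinset.image (fun r => (e r.1, r.2.map e'))).toList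
  have hP' : ∀ p, p ∈ P' ↔ ∃ q β, (q, β) ∈ R ∧ (e q, β.map e') = p := by
    intro p
    simp only [P', Finset.mem_toList, Finset.mem_image, Set.Finite.mem_toFinset, Prod.exists]
  let G' : Gram := ((G.N.toFinset.biUnion σ).toList, (G.T.toFinset.biUnion σ).toList, e s, P')
  have hNmem : ∀ x, x ∈ G'.N ↔ ∃ A ∈ G.N, x ∈ σ A := by
    intro x
    change x ∈ (G.N.toFinset.biUnion σ).toList ↔ _
    rw [Finset.mem_toList, Finset.mem_biUnion]
    simp only [List.mem_toFinset]
  have hTmem : ∀ x, x ∈ G'.T ↔ ∃ a ∈ G.T, x ∈ σ a := by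
    intro x
    change x ∈ (G.T.toFinset.biUnion σ).toList ↔ _
    rw [Finset.mem_toList, Finset.mem_biUnion]
    simp only [List.mem_toFinset]
  have heN : ∀ q, e q ∈ G'.N := fun q =>
    (hNmem _).2 ⟨ν q, hN q, by rw [hσN _ (hN q)]; exact ⟨q, rfl, rfl⟩⟩
  have hG' : G'.IsCFG := by
    refine ⟨?_, heN s, ?_⟩
    · intro z h1 h2
      obtain ⟨x, hx, hzx⟩ := (hNmem z).1 h1
      obtain ⟨y, hy, hzy⟩ := (hTmem z).1 h2
      have hne : x ≠ y := fun h => hG.disj _ hx (h ▸ hy)
      exact (Finset.disjoint_left.1 (hdisj x y (Or.inl hx) (Or.inr hy) hne)) hzx hzy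
    · intro p hp
      obtain ⟨q, β, hr, rfl⟩ := (hP' p).1 hp
      refine ⟨heN q, ?_, ?_⟩
      · have := (hG.wf _ (hR _ hr)).2.1
        simpa using this
      · intro x hx
        obtain ⟨z, hz, rfl⟩ := List.mem_map.1 hx
        have h1 := henc β (hRD _ hr) z hz
        cases z with
        | inl q' => exact Or.inl (heN q')
        | inr x' => exact Or.inr ((hTmem _).2 ⟨τ x', hD _ (hRD _ hr _ hz), h1⟩)
  refine ⟨G', σ, hG', ⟨hdisj, hNmem, hTmem, ?_, ?_⟩, ?_⟩
  · change e s ∈ σ G.S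
    have h1 : G.S = ν s := hs.symm
    rw [h1, hσN _ (hN s)]
    exact ⟨s, rfl, rfl⟩
  · intro p hp
    obtain ⟨q, β, hr, rfl⟩ := (hP' p).1 hp
    refine ⟨(ν q, β.map (Sum.elim ν τ)), hR _ hr, ?_, ?_⟩
    · change e q ∈ σ (ν q)
      rw [hσN _ (hN q)]; exact ⟨q, rfl, rfl⟩
    · change List.Forall₂ _ (β.map e') (β.map (Sum.elim ν τ))
      have h1 := henc β (hRD _ hr)
      rw [List.forall₂_map_left_iff, List.forall₂_map_right_iff, List.forall₂_same]
      exact h1
  · symm
    refine lang_eq G' hG' e R s rfl heN ?_ ?_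
    · intro q β hr
      refine ⟨(hP' _).2 ⟨q, β, hr, rfl⟩, ?_⟩
      intro x hx
      exact (hTmem _).2 ⟨τ x, hD _ (hRD _ hr _ hx), henc β (hRD _ hr) (Sum.inr x) hx⟩
    · intro q γ hγ
      obtain ⟨q', β, hr, heq⟩ := (hP' _).1 hγ
      rw [Prod.mk.injEq] at heq
      have := he heq.1
      subst this
      exact ⟨β, hr, heq.2.symm⟩

end Pool.Agent.W901.GF
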