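import Mathlib

/-! A class of linear languages, given by closure properties, and linear systems for them. -/

set_option autoImplicit false

namespace Pool.Agent.W901.GF

variable {α : Type}

/-- all words obtained from words of `L` by adding repeatedly `(u, v) ∈ P` at the two ends -/
inductive Iter (P : Set (List α × List α)) (L : Set (List α)) : Set (List α)
  | base {w : List α} : w ∈ L → Iter P L w
  | step {u v w : List α} : (u, v) ∈ P → Iter P L w → Iter P L (u ++ w ++ v)

theorem Iter.mem_base {P : Set (List α × List α)} {L : Set (List α)} {w : List α}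
    (h : w ∈ L) : w ∈ Iter P L := Iter.base h

theorem Iter.mem_step {P : Set (List α × List α)} {L : Set (List α)} {u v w : List α}
    (hp : (u, v) ∈ P) (h : w ∈ Iter P L) : u ++ w ++ v ∈ Iter P L := Iter.step hp h

/-- a class of linear languages -/
inductive Lin : Set (List α) → Prop
  | empty : Lin ∅
  | single (w : List α) : w ≠ [] → Lin {w}
  | union {L₁ L₂ : Set (List α)} : Lin L₁ → Lin L₂ → Lin (L₁ ∪ L₂)
  | iter (P : Set (List α × List α)) {L : Set (List α)} : P.Finite → Lin L → Lin (Iter P L)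
  | wrap (u v : List α) {L : Set (List α)} : Lin L → Lin {x | ∃ w ∈ L, x = u ++ w ++ v}

theorem Lin.biUnion {ι : Type} {s : Set ι} (hs : s.Finite) {f : ι → Set (List α)}
    (h : ∀ i ∈ s, Lin (f i)) : Lin (⋃ i ∈ s, f i) := by
  induction s, hs using Set.Finite.induction_on with
  | empty => simpa using Lin.empty
  | insert _ _ ih =>
    rw [Set.biUnion_insert]
    exact Lin.union (h _ (Set.mem_insert _ _)) (ih fun i hi => h i (Set.mem_insert_of_mem _ hi))

theorem Lin.of_finite {L : Set (List α)} (hL : L.Finite) (h : [] ∉ L) : Lin L := by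
  have := Lin.biUnion hL (f := fun w => {w}) (fun w hw => Lin.single w (fun h' => h (h' ▸ hw)))
  simpa using this

/-- linear systems -/
inductive LDer {Q : Type} (R : Set (Q × List α × Option Q × List α)) : Q → List α → Prop
  | base {q : Q} {u v : List α} : (q, u, none, v) ∈ R → LDer R q (u ++ v)
  | step {q q' : Q} {u v w : List α} : (q, u, some q', v) ∈ R → LDer R q' w →
      LDer R q (u ++ w ++ v)

theorem LDer.map {Q Q' : Type} {R : Set (Q × List α × Option Q × List α)}
    {R' : Set (Q' × List α × Option Q' × List α)} (f : Q → Q')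
    (hf : ∀ q u o v, (q, u, o, v) ∈ R → (f q, u, o.map f, v) ∈ R') {q : Q} {w : List α}
    (h : LDer R q w) : LDer R' (f q) w := by
  induction h with
  | base h => exact LDer.base (hf _ _ _ _ h)
  | step h _ ih => exact LDer.step (hf _ _ _ _ h) ih

theorem LDer.map_inv {Q Q' : Type} {R : Set (Q × List α × Option Q × List α)}
    {R' : Set (Q' × List α × Option Q' × List α)} (f : Q → Q')
    (hf : ∀ q u o v, (f q, u, o, v) ∈ R' → ∃ o', o = o'.map f ∧ (q, u, o', v) ∈ R) {q' : Q'}
    {w : List α} (h : LDer R' q' w) : ∀ q, q' = f q → LDer R q w := by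
  induction h with
  | base h =>
    rintro q rfl
    obtain ⟨o', ho, h'⟩ := hf _ _ _ _ h
    cases o' with
    | none => exact LDer.base h'
    | some o' => simp at ho
  | step h _ ih =>
    rintro q rfl
    obtain ⟨o', ho, h'⟩ := hf _ _ _ _ h
    cases o' with
    | none => simp at ho
    | some o' =>
      simp only [Option.map_some, Option.some.injEq] at ho
      exact LDer.step h' (ih o' ho)

/-- `L` is generated by a finite linear system without erasing rules -/
def IsSys (L : Set (List α)) : Prop :=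
  ∃ (Q : Type) (_ : Finite Q) (s : Q) (R : Set (Q × List α × Option Q × List α)),
    R.Finite ∧ (∀ q v, (q, [], none, v) ∈ R → v ≠ []) ∧ (∀ q u v, (q, u, none, v) ∈ R → v = []) ∧
      L = {w | LDer R s w}

/-- add a start state -/
theorem isSys_ext {L : Set (List α)} (hL : IsSys L) (A : Set (List α × List α))
    (B : Set (List α × List α)) (hA : A.Finite) (hB : B.Finite) :
    ∃ (Q : Type) (_ : Finite Q) (s : Q) (R : Set (Q × List α × Option Q × List α)),
    R.Finite ∧ (∀ q v, (q, [], none, v) ∈ R → v ≠ []) ∧ (∀ q u v, (q, u, none, v) ∈ R → v = []) ∧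
      ∀ w, LDer R s w ↔ (∃ p ∈ A, ∃ w' ∈ L, w = p.1 ++ w' ++ p.2) ∨
        (∃ p ∈ B, ∃ w', LDer R s w' ∧ w = p.1 ++ w' ++ p.2) := by
  obtain ⟨Q, hQ, s, R, hR, h1, h2, rfl⟩ := hL
  let g : Q × List α × Option Q × List α → Option Q × List α × Option (Option Q) × List α :=
    fun r => (some r.1, r.2.1, r.2.2.1.map some, r.2.2.2)
  let R' : Set (Option Q × List α × Option (Option Q) × List α) :=
    g '' R ∪ ((fun p : List α × List α => (none, p.1, some (some s), p.2)) '' A ∪
      (fun p : List α × List α => (none, p.1, some none, p.2)) '' B)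
  have hsome : ∀ q u o v, (some q, u, o, v) ∈ R' → ∃ o', o = o'.map some ∧ (q, u, o', v) ∈ R := by
    rintro q u o v (⟨⟨q', u', o', v'⟩, hr, he⟩ | ⟨p, _, he⟩ | ⟨p, _, he⟩)
    · simp only [g, Prod.mk.injEq, Option.some.injEq] at he
      obtain ⟨rfl, rfl, rfl, rfl⟩ := he
      exact ⟨o', rfl, hr⟩
    · simp at he
    · simp at he
  have hin : ∀ q w, LDer R' (some q) w ↔ LDer R q w := by
    intro q w
    constructor
    · intro h
      exact LDer.map_inv some hsome h q rfl
    · intro h
      exact LDer.map some (fun q u o v h => Or.inl ⟨(q, u, o, v), h, rfl⟩) h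
  have hnone : ∀ q u v, (q, u, none, v) ∈ R' → ∃ q', q = some q' ∧ (q', u, none, v) ∈ R := by
    rintro q u v (⟨⟨q', u', o', v'⟩, hr, he⟩ | ⟨p, _, he⟩ | ⟨p, _, he⟩)
    · simp only [g, Prod.mk.injEq, Option.map_eq_none_iff] at he
      obtain ⟨rfl, rfl, rfl, rfl⟩ := he
      exact ⟨q', rfl, hr⟩
    · simp at he
    · simp at he
  refine ⟨Option Q, inferInstance, none, R', (hR.image _).union ((hA.image _).union (hB.image _)),
    ?_, ?_, ?_⟩
  · intro q v h
    obtain ⟨q', -, h'⟩ := hnone _ _ _ h
    exact h1 _ _ h'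
  · intro q u v h
    obtain ⟨q', -, h'⟩ := hnone _ _ _ h
    exact h2 _ _ _ h'
  · intro w
    constructor
    · intro h
      cases h with
      | base h =>
        obtain ⟨q', h', -⟩ := hnone _ _ _ h
        simp at h'
      | step h hd =>
        rcases h with ⟨⟨q', u', o', v'⟩, hr, he⟩ | ⟨p, hp, he⟩ | ⟨p, hp, he⟩
        · simp [g] at he
        · simp only [Prod.mk.injEq, Option.some.injEq, true_and] at he
          obtain ⟨rfl, rfl, rfl⟩ := he
          exact Or.inl ⟨p, hp, _, (hin _ _).1 hd, rfl⟩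
        · simp only [Prod.mk.injEq, Option.some.injEq, true_and] at he
          obtain ⟨rfl, rfl, rfl⟩ := he
          exact Or.inr ⟨p, hp, _, hd, rfl⟩
    · rintro (⟨p, hp, w', hw', rfl⟩ | ⟨p, hp, w', hw', rfl⟩)
      · exact LDer.step (Or.inr (Or.inl ⟨p, hp, rfl⟩)) ((hin _ _).2 hw')
      · exact LDer.step (Or.inr (Or.inr ⟨p, hp, rfl⟩)) hw'

/-- length is a measure: if all pairs of `B` are allowed to be empty, the least solution is taken -/
theorem ldr_iter {Q : Type} {R : Set (Q × List α × Option Q × List α)} {s : Q}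
    {L : Set (List α)} {B : Set (List α × List α)}
    (h : ∀ w, LDer R s w ↔ (∃ p ∈ ({([], [])} : Set (List α × List α)), ∃ w' ∈ L,
      w = p.1 ++ w' ++ p.2) ∨ (∃ p ∈ B, ∃ w', LDer R s w' ∧ w = p.1 ++ w' ++ p.2)) :
    ∀ w, w ∈ Iter B L → LDer R s w := by
  intro w hw
  induction hw with
  | base hw => exact (h _).2 (Or.inl ⟨([], []), rfl, _, hw, by simp⟩)
  | step hp _ ih => exact (h _).2 (Or.inr ⟨_, hp, _, ih, rfl⟩)

theorem isSys_single (w : List α) (hw : w ≠ []) : IsSys ({w} : Set (List α)) := by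
  refine ⟨Unit, inferInstance, (), {((), w, none, [])}, Set.finite_singleton _, ?_, ?_, ?_⟩
  · rintro q v h
    simp only [Set.mem_singleton_iff, Prod.mk.injEq] at h
    exact absurd h.2.1.symm hw
  · rintro q u v h
    simp only [Set.mem_singleton_iff, Prod.mk.injEq] at h
    exact h.2.2.2
  · ext x
    simp only [Set.mem_singleton_iff, Set.mem_ofPred_eq]
    constructor
    · rintro rfl
      have : LDer ({((), x, none, [])} : Set (Unit × List α × Option Unit × List α)) ()
        (x ++ []) := LDer.base rfl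
      simpa using this
    · intro h
      cases h with
      | base h =>
        simp only [Set.mem_singleton_iff, Prod.mk.injEq] at h
        obtain ⟨-, rfl, -, rfl⟩ := h
        simp
      | step h _ =>
        simp at h

theorem isSys_empty : IsSys (∅ : Set (List α)) := by
  refine ⟨Unit, inferInstance, (), ∅, Set.finite_empty, by simp, by simp, ?_⟩
  ext x
  simp only [Set.mem_empty_iff_false, Set.mem_ofPred_eq, false_iff]
  intro h
  cases h with
  | base h => exact h
  | step h _ => exact h

theorem isSys_union {L₁ L₂ : Set (List α)} (h₁ : IsSys L₁) (h₂ : IsSys L₂) :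
    IsSys (L₁ ∪ L₂) := by
  obtain ⟨Q₁, hQ₁, s₁, R₁, hR₁, h11, h12, rfl⟩ := h₁
  obtain ⟨Q₂, hQ₂, s₂, R₂, hR₂, h21, h22, rfl⟩ := h₂
  let i₁ : Q₁ → Option (Q₁ ⊕ Q₂) := fun q => some (Sum.inl q)
  let i₂ : Q₂ → Option (Q₁ ⊕ Q₂) := fun q => some (Sum.inr q)
  let g₁ : Q₁ × List α × Option Q₁ × List α → _ := fun r => (i₁ r.1, r.2.1, r.2.2.1.map i₁, r.2.2.2)
  let g₂ : Q₂ × List α × Option Q₂ × List α → _ := fun r => (i₂ r.1, r.2.1, r.2.2.1.map i₂, r.2.2.2)
  let R' : Set (Option (Q₁ ⊕ Q₂) × List α × Option (Option (Q₁ ⊕ Q₂)) × List α) :=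
    g₁ '' R₁ ∪ (g₂ '' R₂ ∪ {(none, [], some (i₁ s₁), []), (none, [], some (i₂ s₂), [])})
  have hmem : ∀ r, r ∈ R' ↔ (∃ x ∈ R₁, g₁ x = r) ∨ (∃ x ∈ R₂, g₂ x = r) ∨
      r = (none, [], some (i₁ s₁), []) ∨ r = (none, [], some (i₂ s₂), []) := by
    intro r
    simp only [R', Set.mem_union, Set.mem_image, Set.mem_insert_iff, Set.mem_singleton_iff]
  have hin₁ : ∀ q w, LDer R' (i₁ q) w ↔ LDer R₁ q w := by
    intro q w
    constructor
    · intro h
      refine LDer.map_inv i₁ ?_ h q rfl
      intro q u o v hr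
      rcases (hmem _).1 hr with ⟨⟨q', u', o', v'⟩, hx, he⟩ | ⟨⟨q', u', o', v'⟩, hx, he⟩ | he | he
      · simp only [g₁, i₁, Prod.mk.injEq, Option.some.injEq, Sum.inl.injEq] at he
        obtain ⟨rfl, rfl, rfl, rfl⟩ := he
        exact ⟨o', rfl, hx⟩
      · simp [g₂, i₁, i₂] at he
      · simp [i₁] at he
      · simp [i₁] at he
    · intro h
      exact LDer.map i₁ (fun q u o v h => (hmem _).2 (Or.inl ⟨(q, u, o, v), h, rfl⟩)) h
  have hin₂ : ∀ q w, LDer R' (i₂ q) w ↔ LDer R₂ q w := by
    intro q w
    constructor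
    · intro h
      refine LDer.map_inv i₂ ?_ h q rfl
      intro q u o v hr
      rcases (hmem _).1 hr with ⟨⟨q', u', o', v'⟩, hx, he⟩ | ⟨⟨q', u', o', v'⟩, hx, he⟩ | he | he
      · simp [g₁, i₁, i₂] at he
      · simp only [g₂, i₂, Prod.mk.injEq, Option.some.injEq, Sum.inr.injEq] at he
        obtain ⟨rfl, rfl, rfl, rfl⟩ := he
        exact ⟨o', rfl, hx⟩
      · simp [i₂] at he
      · simp [i₂] at he
    · intro h
      exact LDer.map i₂ (fun q u o v h => (hmem _).2 (Or.inr (Or.inl ⟨(q, u, o, v), h, rfl⟩))) h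
  have hnone : ∀ q u v, (q, u, none, v) ∈ R' →
      (∃ q', (q', u, none, v) ∈ R₁) ∨ (∃ q', (q', u, none, v) ∈ R₂) := by
    intro q u v hr
    rcases (hmem _).1 hr with ⟨⟨q', u', o', v'⟩, hx, he⟩ | ⟨⟨q', u', o', v'⟩, hx, he⟩ | he | he
    · simp only [g₁, Prod.mk.injEq, Option.map_eq_none_iff] at he
      obtain ⟨rfl, rfl, rfl, rfl⟩ := he
      exact Or.inl ⟨q', hx⟩
    · simp only [g₂, Prod.mk.injEq, Option.map_eq_none_iff] at he
      obtain ⟨rfl, rfl, rfl, rfl⟩ := he
      exact Or.inr ⟨q', hx⟩
    · simp at he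
    · simp at he
  refine ⟨Option (Q₁ ⊕ Q₂), inferInstance, none, R', ?_, ?_, ?_, ?_⟩
  · exact (hR₁.image _).union ((hR₂.image _).union (Set.toFinite _))
  · intro q v hr
    rcases hnone _ _ _ hr with ⟨q', h⟩ | ⟨q', h⟩
    · exact h11 _ _ h
    · exact h21 _ _ h
  · intro q u v hr
    rcases hnone _ _ _ hr with ⟨q', h⟩ | ⟨q', h⟩
    · exact h12 _ _ _ h
    · exact h22 _ _ _ h
  · ext w
    simp only [Set.mem_union, Set.mem_ofPred_eq]
    constructor
    · rintro (h | h)
      · have : LDer R' none ([] ++ w ++ []) :=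
          LDer.step ((hmem _).2 (Or.inr (Or.inr (Or.inl rfl)))) ((hin₁ _ _).2 h)
        simpa using this
      · have : LDer R' none ([] ++ w ++ []) :=
          LDer.step ((hmem _).2 (Or.inr (Or.inr (Or.inr rfl)))) ((hin₂ _ _).2 h)
        simpa using this
    · intro h
      cases h with
      | base h =>
        rcases (hmem _).1 h with ⟨⟨q', u', o', v'⟩, hx, he⟩ | ⟨⟨q', u', o', v'⟩, hx, he⟩ | he | he
        · simp [g₁, i₁] at he
        · simp [g₂, i₂] at he
        · simp at he
        · simp at he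
      | step h hd =>
        rcases (hmem _).1 h with ⟨⟨q', u', o', v'⟩, hx, he⟩ | ⟨⟨q', u', o', v'⟩, hx, he⟩ | he | he
        · simp [g₁, i₁] at he
        · simp [g₂, i₂] at he
        · simp only [Prod.mk.injEq, Option.some.injEq, true_and] at he
          obtain ⟨rfl, rfl, rfl⟩ := he
          left
          simpa using (hin₁ _ _).1 hd
        · simp only [Prod.mk.injEq, Option.some.injEq, true_and] at he
          obtain ⟨rfl, rfl, rfl⟩ := he
          right
          simpa using (hin₂ _ _).1 hd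

theorem isSys_wrap (u v : List α) {L : Set (List α)} (hL : IsSys L) :
    IsSys {x | ∃ w ∈ L, x = u ++ w ++ v} := by
  obtain ⟨Q, hQ, s, R, hR, h1, h2, h3⟩ := isSys_ext hL {(u, v)} ∅ (Set.finite_singleton _)
    Set.finite_empty
  refine ⟨Q, hQ, s, R, hR, h1, h2, ?_⟩
  ext w
  simp only [Set.mem_ofPred_eq]
  rw [h3]
  simp

/-- systems with an extra rule at the start state -/
theorem isSys_iter {P : Set (List α × List α)} (hP : P.Finite) {L : Set (List α)}
    (hL : IsSys L) : IsSys (Iter P L) := by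
  obtain ⟨Q, hQ, s, R, hR, h1, h2, rfl⟩ := hL
  let g : Q × List α × Option Q × List α → Option Q × List α × Option (Option Q) × List α :=
    fun r => (some r.1, r.2.1, r.2.2.1.map some, r.2.2.2)
  let R' : Set (Option Q × List α × Option (Option Q) × List α) :=
    g '' R ∪ ({(none, [], some (some s), [])} ∪
      (fun p : List α × List α => (none, p.1, some none, p.2)) '' P)
  have hmem : ∀ r, r ∈ R' ↔ (∃ x ∈ R, g x = r) ∨ r = (none, [], some (some s), []) ∨
      (∃ p ∈ P, (none, p.1, some none, p.2) = r) := by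
    intro r
    simp only [R', Set.mem_union, Set.mem_image, Set.mem_singleton_iff]
  have hin : ∀ q w, LDer R' (some q) w ↔ LDer R q w := by
    intro q w
    constructor
    · intro h
      refine LDer.map_inv some ?_ h q rfl
      intro q u o v hr
      rcases (hmem _).1 hr with ⟨⟨q', u', o', v'⟩, hx, he⟩ | he | ⟨p, hp, he⟩
      · simp only [g, Prod.mk.injEq, Option.some.injEq] at he
        obtain ⟨rfl, rfl, rfl, rfl⟩ := he
        exact ⟨o', rfl, hx⟩
      · simp at he
      · simp at he
    · intro h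
      exact LDer.map some (fun q u o v h => (hmem _).2 (Or.inl ⟨(q, u, o, v), h, rfl⟩)) h
  have hnone : ∀ q u v, (q, u, none, v) ∈ R' → ∃ q', (q', u, none, v) ∈ R := by
    intro q u v hr
    rcases (hmem _).1 hr with ⟨⟨q', u', o', v'⟩, hx, he⟩ | he | ⟨p, hp, he⟩
    · simp only [g, Prod.mk.injEq, Option.map_eq_none_iff] at he
      obtain ⟨rfl, rfl, rfl, rfl⟩ := he
      exact ⟨q', hx⟩
    · simp at he
    · simp at he
  refine ⟨Option Q, inferInstance, none, R', ?_, ?_, ?_, ?_⟩
  · exact (hR.image _).union ((Set.finite_singleton _).union (hP.image _))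
  · intro q v hr
    obtain ⟨q', h⟩ := hnone _ _ _ hr
    exact h1 _ _ h
  · intro q u v hr
    obtain ⟨q', h⟩ := hnone _ _ _ hr
    exact h2 _ _ _ h
  · ext w
    simp only [Set.mem_ofPred_eq]
    constructor
    · intro h
      induction h with
      | @base w h =>
        have : LDer R' none ([] ++ w ++ []) :=
          LDer.step ((hmem _).2 (Or.inr (Or.inl rfl))) ((hin _ _).2 h)
        simpa using this
      | step hp _ ih =>
        exact LDer.step ((hmem _).2 (Or.inr (Or.inr ⟨_, hp, rfl⟩))) ih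
    · intro h
      generalize ho : (none : Option Q) = o at h
      induction h with
      | base h =>
        subst ho
        rcases (hmem _).1 h with ⟨⟨q', u', o', v'⟩, hx, he⟩ | he | ⟨p, hp, he⟩
        · simp [g] at he
        · simp at he
        · simp at he
      | step h hd ih =>
        subst ho
        rcases (hmem _).1 h with ⟨⟨q', u', o', v'⟩, hx, he⟩ | he | ⟨p, hp, he⟩
        · simp [g] at he
        · simp only [Prod.mk.injEq, Option.some.injEq, true_and] at he
          obtain ⟨rfl, rfl, rfl⟩ := he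
          apply Iter.base
          simpa using (hin _ _).1 hd
        · simp only [Prod.mk.injEq, Option.some.injEq, true_and] at he
          obtain ⟨rfl, rfl, rfl⟩ := he
          exact Iter.step hp (ih rfl)

theorem Lin.isSys {L : Set (List α)} (h : Lin L) : IsSys L := by
  induction h with
  | empty => exact isSys_empty
  | single w hw => exact isSys_single w hw
  | union _ _ ih₁ ih₂ => exact isSys_union ih₁ ih₂
  | iter P hP _ ih => exact isSys_iter hP ih
  | wrap u v _ ih => exact isSys_wrap u v ih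

end Pool.Agent.W901.GF
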