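import Pool.Agent.W901.GF.Defs
import Pool.Agent.W901.GF.Lin

/-! Absorption of regular languages in grammatical families. -/

set_option autoImplicit false

namespace Pool.Agent.W901.GF

open Pool.Agent.Helper230

/-! ### The language of a grammar, with types -/

section
variable (G : Gram)

/-- rules of `G` with typed letters -/
def RG : Set ({x // x ∈ G.N} × List ({x // x ∈ G.N} ⊕ ℕ)) :=
  {r | (r.1.1, r.2.map (Sum.elim Subtype.val id)) ∈ G.P ∧ ∀ x, Sum.inr x ∈ r.2 → x ∈ G.T}

theorem language_eq (hG : G.IsCFG) :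
    G.language = {w | Der (ExR (RG G)) [Sum.inl (⟨G.S, hG.start_mem⟩ : {x // x ∈ G.N})] w} := by
  classical
  refine lang_eq G hG Subtype.val (RG G) ⟨G.S, hG.start_mem⟩ rfl (fun q => q.2)
    (fun q β h => ⟨h.1, h.2⟩) ?_
  intro q γ hγ
  have hwf := (hG.wf _ hγ).2.2
  let lf : ℕ → {x // x ∈ G.N} ⊕ ℕ := fun x => if h : x ∈ G.N then Sum.inl ⟨x, h⟩ else Sum.inr x
  have h1 : (γ.map lf).map (Sum.elim Subtype.val id) = γ := by
    rw [List.map_map]
    conv_rhs => rw [← List.map_id γ]
    apply List.map_congr_left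
    intro x _
    simp only [Function.comp_apply, lf]
    split_ifs <;> rfl
  refine ⟨γ.map lf, ⟨?_, ?_⟩, h1.symm⟩
  · dsimp only
    rw [h1]; exact hγ
  · intro x hx
    obtain ⟨y, hy, hxy⟩ := List.mem_map.1 hx
    simp only [lf] at hxy
    split_ifs at hxy with h
    have : y = x := by simpa using hxy
    subst this
    rcases hwf y hy with h2 | h2
    · exact absurd h2 h
    · exact h2

end

/-- words of an interpretation are mapped to words of the grammar -/
theorem gen_map {G : Gram} (hG : G.IsCFG) {τ : ℕ → ℕ} {L : Set (List ℕ)}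
    (hL : Gen (G.dat hG) τ L) : ∀ w ∈ L, w.map τ ∈ G.language := by
  obtain ⟨Q, hQ, ν, s, R, D, hs, hN, hD, hR, hRD, rfl⟩ := hL
  intro w hw
  rw [language_eq G hG]
  let f : Q ⊕ ℕ → {x // x ∈ G.N} ⊕ ℕ := Sum.map (fun q => ⟨ν q, hN q⟩) τ
  have key : ∀ n γ w, DerN (ExR R) n γ w → DerN (ExR (RG G)) n (γ.map f) (w.map τ) := by
    intro n γ w h
    induction h with
    | nil n => exact DerN.nil n
    | ter a _ ih => exact DerN.ter _ ih
    | @nt n q x u w1 w2 hx _ _ ih1 ih2 =>
      rw [List.map_append]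
      refine DerN.nt (x := x.map f) ⟨?_, ?_⟩ ih1 ih2
      · have h1 := hR _ hx
        have h2 : (x.map f).map (Sum.elim Subtype.val id) = x.map (Sum.elim ν τ) := by
          rw [List.map_map]
          apply List.map_congr_left
          rintro (q | y) _ <;> rfl
        rw [h2]
        exact h1
      · intro y hy
        obtain ⟨z, hz, hzy⟩ := List.mem_map.1 hy
        cases z with
        | inl q => simp [f] at hzy
        | inr z =>
          simp only [f, Sum.map_inr, Sum.inr.injEq] at hzy
          rw [← hzy]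
          exact hD z (hRD _ hx z hz)
  obtain ⟨n, hn⟩ := hw
  have h1 := key n _ _ hn
  have h2 : f (Sum.inl s) = Sum.inl ⟨G.S, hG.start_mem⟩ := by
    simp only [f, Sum.map_inl, Sum.inl.injEq]
    exact Subtype.ext hs
  rw [List.map_cons, List.map_nil, h2] at h1
  exact ⟨n, h1⟩

/-- the largest language of the family with a given coding -/
theorem gen_max {G : Gram} (hG : G.IsCFG) (τ : ℕ → ℕ) (D : Finset ℕ) (hD : ∀ x ∈ D, τ x ∈ G.T) :
    Gen (G.dat hG) τ {w | (∀ x ∈ w, x ∈ D) ∧ w.map τ ∈ G.language} := by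
  let R' : Set ({x // x ∈ G.N} × List ({x // x ∈ G.N} ⊕ ℕ)) :=
    {r | (r.1.1, r.2.map (Sum.elim Subtype.val τ)) ∈ G.P ∧ ∀ x, Sum.inr x ∈ r.2 → x ∈ D}
  have hfinN : Finite {x // x ∈ G.N} := by
    have : {x | x ∈ G.N}.Finite := List.finite_toSet G.N
    exact this
  refine ⟨{x // x ∈ G.N}, hfinN, Subtype.val, ⟨G.S, hG.start_mem⟩, R', D, rfl, fun q => q.2, hD,
    fun r hr => hr.1, fun r hr => hr.2, ?_⟩
  let f : {x // x ∈ G.N} ⊕ ℕ → {x // x ∈ G.N} ⊕ ℕ := Sum.map id τ
  ext w
  simp only [Set.mem_ofPred_eq]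
  rw [language_eq G hG]
  constructor
  · rintro ⟨hw, n, hn⟩
    have key : ∀ n γ' w', DerN (ExR (RG G)) n γ' w' → ∀ w : List ℕ, w.map τ = w' →
        (∀ x ∈ w, x ∈ D) → ∃ γ, γ.map f = γ' ∧ DerN (ExR R') n γ w ∧
          ∀ x, Sum.inr x ∈ γ → x ∈ D := by
      intro n γ' w' h
      induction h with
      | nil n =>
        intro w hw _
        have : w = [] := by simpa using hw
        subst this
        exact ⟨[], rfl, DerN.nil n, by simp⟩
      | ter a _ ih =>
        intro w hw hD'
        obtain ⟨x, w1, rfl, hx, hw1⟩ := List.map_eq_cons_iff.1 hw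
        obtain ⟨γ, hγ, hd, hγD⟩ := ih w1 hw1 (fun y hy => hD' y (List.mem_cons_of_mem _ hy))
        refine ⟨Sum.inr x :: γ, ?_, DerN.ter x hd, ?_⟩
        · rw [List.map_cons, hγ]
          simp only [f, Sum.map_inr, hx]
        · intro y hy
          rcases List.mem_cons.1 hy with hy | hy
          · simp only [Sum.inr.injEq] at hy
            subst hy
            exact hD' _ List.mem_cons_self
          · exact hγD y hy
      | @nt n q x u w1 w2 hx _ _ ih1 ih2 =>
        intro w hw hD'
        obtain ⟨v1, v2, rfl, hv1, hv2⟩ := List.map_eq_append_iff.1 hw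
        obtain ⟨γ1, hγ1, hd1, hD1⟩ := ih1 v1 hv1 (fun y hy => hD' y (List.mem_append_left _ hy))
        obtain ⟨γ2, hγ2, hd2, hD2⟩ := ih2 v2 hv2 (fun y hy => hD' y (List.mem_append_right _ hy))
        refine ⟨Sum.inl q :: γ2, ?_, DerN.nt ⟨?_, hD1⟩ hd1 hd2, ?_⟩
        · rw [List.map_cons, hγ2]; rfl
        · have h1 := hx.1
          rw [← hγ1, List.map_map] at h1
          have h2 : List.map (Sum.elim Subtype.val id ∘ f) γ1 =
              List.map (Sum.elim Subtype.val τ) γ1 := by
            apply List.map_congr_left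
            rintro (q | y) _ <;> rfl
          rw [h2] at h1
          exact h1
        · intro y hy
          rcases List.mem_cons.1 hy with hy | hy
          · simp at hy
          · exact hD2 y hy
    obtain ⟨γ, hγ, hd, _⟩ := key n _ _ hn w rfl hw
    have hγ' : γ = [Sum.inl ⟨G.S, hG.start_mem⟩] := by
      cases γ with
      | nil => simp at hγ
      | cons z γ =>
        rw [List.map_cons, List.cons.injEq] at hγ
        have : γ = [] := by simpa using hγ.2
        subst this
        cases z with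
        | inl q =>
          have := hγ.1
          simp only [f, Sum.map_inl, id_eq] at this
          rw [this]
        | inr z => simp [f] at hγ
    rw [hγ'] at hd
    exact ⟨n, hd⟩
  · rintro ⟨n, hn⟩
    refine ⟨DerN_letters (fun r hr => hr.2) hn (by simp), ?_⟩
    have key : ∀ n γ w, DerN (ExR R') n γ w → DerN (ExR (RG G)) n (γ.map f) (w.map τ) := by
      intro n γ w h
      induction h with
      | nil n => exact DerN.nil n
      | ter a _ ih => exact DerN.ter _ ih
      | @nt n q x u w1 w2 hx _ _ ih1 ih2 =>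
        rw [List.map_append]
        refine DerN.nt (x := x.map f) ⟨?_, ?_⟩ ih1 ih2
        · have h1 := hx.1
          have h2 : (x.map f).map (Sum.elim Subtype.val id) =
              x.map (Sum.elim Subtype.val τ) := by
            rw [List.map_map]
            apply List.map_congr_left
            rintro (q | y) _ <;> rfl
          rw [h2]
          exact h1
        · intro y hy
          obtain ⟨z, hz, hzy⟩ := List.mem_map.1 hy
          cases z with
          | inl q => simp [f] at hzy
          | inr z =>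
            simp only [f, Sum.map_inr, Sum.inr.injEq] at hzy
            rw [← hzy]
            exact hD z (hx.2 z hz)
    exact ⟨n, key n _ _ hn⟩

/-- The language of a grammar is in its family. -/
theorem language_mem_family {G : Gram} (hG : G.IsCFG) : G.language ∈ family G := by
  have h := gen_max hG id G.T.toFinset (fun x hx => List.mem_toFinset.1 hx)
  have h2 := gen_fam hG h
  convert h2 using 1
  ext w
  simp only [Set.mem_ofPred_eq, List.map_id]
  constructor
  · intro hw
    exact ⟨fun x hx => List.mem_toFinset.2 (hw.1 x hx), hw⟩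
  · exact fun hw => hw.2

/-- The hypotheses of the absorption lemma: the productions of `G` are productions of `H`, or
are start productions which are right-linear over a universal right-linear nonterminal `U`, and
which produce words of `H` only. -/
structure Absorb (G H : Gram) (U : ℕ) (Al : Finset ℕ) : Prop where
  N_eq : H.N = G.N
  T_eq : H.T = G.T
  S_eq : H.S = G.S
  U_ne : U ≠ G.S
  U_mem : U ∈ G.N
  low : ∀ A β, (A, β) ∈ G.P → A ≠ G.S → (A, β) ∈ H.P
  noS : ∀ A β, (A, β) ∈ G.P → G.S ∉ β
  uRules : ∀ β, (U, β) ∈ G.P → ∃ x ∈ Al, β = [x] ∨ β = [x, U]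
  sRules : ∀ β, (G.S, β) ∈ G.P → (G.S, β) ∉ H.P →
    ∃ (x : ℕ) (u : List ℕ), (∀ y ∈ x :: u, y ∉ G.N) ∧ (β = x :: u ∨ β = x :: (u ++ [U])) ∧
      ∀ v : List ℕ, (∀ y ∈ v, y ∈ Al) → (β = x :: (u ++ [U]) ∨ v = []) →
        x :: (u ++ v) ∈ H.language
  Al_T : ∀ x ∈ Al, x ∈ G.T

section absorb

variable {G H : Gram} {U : ℕ} {Al : Finset ℕ}

theorem derN_mono {Q : Type} {R R' : Set (Q × List (Q ⊕ ℕ))} (P : Q → Prop)
    (h : ∀ q x, P q → (q, x) ∈ R → (q, x) ∈ R' ∧ ∀ q', Sum.inl q' ∈ x → P q') {n : ℕ}
    {γ : List (Q ⊕ ℕ)} {w : List ℕ} (hd : DerN (ExR R) n γ w) :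
    (∀ q, Sum.inl q ∈ γ → P q) → DerN (ExR R') n γ w := by
  induction hd with
  | nil n => intro _; exact DerN.nil n
  | ter a _ ih => intro hγ; exact DerN.ter a (ih fun q hq => hγ q (List.mem_cons_of_mem _ hq))
  | nt hx _ _ ih1 ih2 =>
    intro hγ
    obtain ⟨h1, h2⟩ := h _ _ (hγ _ List.mem_cons_self) hx
    exact DerN.nt h1 (ih1 h2) (ih2 fun q hq => hγ q (List.mem_cons_of_mem _ hq))

theorem absorb (hG : G.IsCFG) (hH : H.IsCFG) (hA : Absorb G H U Al) {τ : ℕ → ℕ}
    {L : Set (List ℕ)} (hL : Gen (G.dat hG) τ L) : Gen (H.dat hH) τ L := by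
  classical
  obtain ⟨Q, hQ, ν, s, R, D, hs, hN, hD, hR, hRD, rfl⟩ := hL
  have hs' : ν s = G.S := hs
  have hN' : ∀ q, ν q ∈ G.N := hN
  have hD' : ∀ x ∈ D, τ x ∈ G.T := hD
  have hR' : ∀ r ∈ R, (ν r.1, r.2.map (Sum.elim ν τ)) ∈ G.P := hR
  let Ra : Set (Q × List (Q ⊕ ℕ)) := {r | r ∈ R ∧ (ν r.1, r.2.map (Sum.elim ν τ)) ∈ H.P}
  let Rb : Set (Q × List (Q ⊕ ℕ)) :=
    {r | r ∈ R ∧ ((ν r.1 = G.S ∧ (ν r.1, r.2.map (Sum.elim ν τ)) ∉ H.P) ∨ ν r.1 = U)}
  let La : Set (List ℕ) := {w | Der (ExR Ra) [Sum.inl s] w}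
  let Lb : Set (List ℕ) := {w | Der (ExR Rb) [Sum.inl s] w}
  -- shape of the rules in `Rb`
  have hter : ∀ r ∈ R, ∀ (v : List ℕ) (γ : List (Q ⊕ ℕ)),
      (∀ y ∈ v, y ∉ G.N) → γ.map (Sum.elim ν τ) = v → ∃ w : List ℕ, γ = w.map Sum.inr := by
    intro r _ v γ hv hγ
    clear hRD hR'
    induction γ generalizing v with
    | nil => exact ⟨[], rfl⟩
    | cons z γ ih =>
      subst hγ
      obtain ⟨w, hw⟩ := ih _ (fun y hy => hv y (by
        rw [List.map_cons]; exact List.mem_cons_of_mem _ hy)) rfl
      cases z with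
      | inl q => exact absurd (hN' q) (hv (ν q) (by simp))
      | inr z => exact ⟨z :: w, by rw [hw]; rfl⟩
  have shape : ∀ r ∈ Rb, ∃ (x : ℕ) (u : List ℕ) (o : Option Q),
      r.2 = Sum.inr x :: (u.map Sum.inr ++ o.toList.map Sum.inl) ∧ ∀ q ∈ o, ν q = U := by
    rintro ⟨q, β⟩ ⟨hr, hb⟩
    have h1 := hR' _ hr
    dsimp only at hb h1 ⊢
    have hfin : ∃ (x : ℕ) (u : List ℕ), (∀ y ∈ x :: u, y ∉ G.N) ∧
        (β.map (Sum.elim ν τ) = x :: u ∨ β.map (Sum.elim ν τ) = x :: (u ++ [U])) := by
      rcases hb with ⟨hb1, hb2⟩ | hb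
      · rw [hb1] at h1 hb2
        obtain ⟨x, u, h2, h3, _⟩ := hA.sRules _ h1 hb2
        exact ⟨x, u, h2, h3⟩
      · rw [hb] at h1
        obtain ⟨x, hx, h2⟩ := hA.uRules _ h1
        refine ⟨x, [], ?_, h2⟩
        intro y hy
        have : y = x := by simpa using hy
        subst this
        exact fun h => hG.disj _ h (hA.Al_T _ hx)
    obtain ⟨x, u, hxu, h2⟩ := hfin
    rcases h2 with h2 | h2
    · obtain ⟨w, hw⟩ := hter _ hr _ β hxu h2
      cases w with
      | nil => rw [hw] at h2; simp at h2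
      | cons y w =>
        refine ⟨y, w, none, by rw [hw]; simp, by simp⟩
    · rw [show x :: (u ++ [U]) = (x :: u) ++ [U] by simp] at h2
      obtain ⟨β1, β2, rfl, h3, h4⟩ := List.map_eq_append_iff.1 h2
      obtain ⟨w, rfl⟩ := hter _ hr _ β1 hxu h3
      obtain ⟨z, γ, rfl, h5, h6⟩ := List.map_eq_cons_iff.1 h4
      have : γ = [] := by simpa using h6
      subst this
      cases z with
      | inr z =>
        exfalso
        have h7 : τ z = U := h5
        have h8 := hD' z (hRD _ hr z (by simp))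
        rw [h7] at h8
        exact hG.disj _ hA.U_mem h8
      | inl q' =>
        cases w with
        | nil => simp at h3
        | cons y w =>
          refine ⟨y, w, some q', by simp, ?_⟩
          intro q'' hq''
          simp only [Option.mem_def, Option.some.injEq] at hq''
          subst hq''
          exact h5
  have hU : ∀ q x, ν q = U → (q, x) ∈ R → (q, x) ∈ Rb ∧ ∀ q', Sum.inl q' ∈ x → ν q' = U := by
    intro q x hq hx
    have h1 : (q, x) ∈ Rb := ⟨hx, Or.inr hq⟩
    refine ⟨h1, ?_⟩
    obtain ⟨y, u, o, h2, h3⟩ := shape _ h1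
    dsimp only at h2
    intro q' hq'
    rw [h2] at hq'
    simp only [List.mem_cons, reduceCtorEq, List.mem_append, List.mem_map,
      and_false, exists_false, Sum.inl.injEq, exists_eq_right, false_or] at hq'
    exact h3 q' (by simpa using hq')
  -- decomposition
  have hdec : {w | Der (ExR R) [Sum.inl s] w} = La ∪ Lb := by
    ext w
    constructor
    · rintro ⟨n, hn⟩
      obtain ⟨m, β, rfl, hβ, hd⟩ := hn.single_inv
      by_cases hH' : (ν s, β.map (Sum.elim ν τ)) ∈ H.P
      · left
        have h1 : ∀ q x, ν q ≠ G.S → (q, x) ∈ R →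
            (q, x) ∈ Ra ∧ ∀ q', Sum.inl q' ∈ x → ν q' ≠ G.S := by
          intro q x hq hx
          have h2 := hR' _ hx
          refine ⟨⟨hx, hA.low _ _ h2 hq⟩, ?_⟩
          intro q' hq' h3
          apply hA.noS _ _ h2
          rw [← h3]
          exact List.mem_map.2 ⟨Sum.inl q', hq', rfl⟩
        have h2 : ∀ q', Sum.inl q' ∈ β → ν q' ≠ G.S := by
          intro q' hq' h3
          apply hA.noS _ _ (hR' _ hβ)
          rw [← h3]
          exact List.mem_map.2 ⟨Sum.inl q', hq', rfl⟩
        exact Der.single (Ex := ExR Ra) ⟨hβ, hH'⟩ ⟨m, derN_mono _ h1 hd h2⟩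
      · right
        have h1 : (s, β) ∈ Rb := ⟨hβ, Or.inl ⟨hs', hH'⟩⟩
        obtain ⟨y, u, o, h2, h3⟩ := shape _ h1
        dsimp only at h2
        refine Der.single (Ex := ExR Rb) h1 ⟨m, derN_mono (fun q => ν q = U) hU hd ?_⟩
        intro q' hq'
        rw [h2] at hq'
        simp only [List.mem_cons, reduceCtorEq, List.mem_append, List.mem_map,
          and_false, exists_false, Sum.inl.injEq, exists_eq_right, false_or] at hq'
        exact h3 q' (by simpa using hq')
    · rintro (⟨n, hn⟩ | ⟨n, hn⟩)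
      · exact ⟨n, derN_mono (fun _ => True) (fun q x _ h => ⟨h.1, fun _ _ => trivial⟩) hn
          (fun _ _ => trivial)⟩
      · exact ⟨n, derN_mono (fun _ => True) (fun q x _ h => ⟨h.1, fun _ _ => trivial⟩) hn
          (fun _ _ => trivial)⟩
  have hGa : Gen (H.dat hH) τ La := by
    refine ⟨Q, hQ, ν, s, Ra, D, ?_, ?_, ?_, ?_, ?_, rfl⟩
    · change ν s = H.S
      rw [hA.S_eq]; exact hs'
    · intro q
      change ν q ∈ H.N
      rw [hA.N_eq]; exact hN' q
    · intro x hx
      change τ x ∈ H.T
      rw [hA.T_eq]; exact hD' x hx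
    · exact fun r hr => hr.2
    · exact fun r hr => hRD r hr.1
  -- the regular part
  obtain ⟨K, hK⟩ := length_bound G.P
  have hE : (Set.range (Sum.inl : Q → Q ⊕ ℕ) ∪ Sum.inr '' (D : Set ℕ)).Finite :=
    (Set.finite_range _).union (Set.Finite.image _ D.finite_toSet)
  have hZfin := finite_words _ hE (K + 2)
  let ZS : Set (List (Q ⊕ ℕ)) := {w | (∀ x ∈ w, x ∈ (Set.range (Sum.inl : Q → Q ⊕ ℕ) ∪
    Sum.inr '' (D : Set ℕ))) ∧ w.length < K + 2}
  have hZf : Finite ZS := hZfin
  let δ : ZS → ℕ → ℕ → ZS → Prop := fun z x x' z' => x' = x ∧ x ∈ D ∧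
    (z.1 = Sum.inr x :: z'.1 ∨ ∃ q, z.1 = [Sum.inl q] ∧ (q, Sum.inr x :: z'.1) ∈ Rb)
  have hmemE : ∀ z : Q ⊕ ℕ, z ∈ (Set.range (Sum.inl : Q → Q ⊕ ℕ) ∪ Sum.inr '' (D : Set ℕ)) ↔
      ∀ x, z = Sum.inr x → x ∈ D := by
    intro z
    constructor
    · rintro (⟨q, rfl⟩ | ⟨x, hx, rfl⟩) y hy
      · simp at hy
      · simp only [Sum.inr.injEq] at hy
        subst hy; exact hx
    · intro h
      cases z with
      | inl q => exact Or.inl ⟨q, rfl⟩
      | inr x => exact Or.inr ⟨x, h x rfl, rfl⟩
  let z0 : ZS := ⟨[Sum.inl s], by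
    refine ⟨?_, ?_⟩
    · intro x hx
      rw [hmemE]
      intro y hy
      have : x = Sum.inl s := by simpa using hx
      rw [this] at hy; simp at hy
    · simp⟩
  have hrhs : ∀ r ∈ Rb, ∀ x z, r.2 = Sum.inr x :: z → z ∈ ZS ∧ x ∈ D := by
    intro r hr x z hz
    refine ⟨⟨?_, ?_⟩, ?_⟩
    · intro y hy
      rw [hmemE]
      rintro y' rfl
      exact hRD r hr.1 y' (by rw [hz]; exact List.mem_cons_of_mem _ hy)
    · have h1 := hK _ (hR' r hr.1)
      rw [List.length_map, hz, List.length_cons] at h1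
      omega
    · exact hRD r hr.1 x (by rw [hz]; exact List.mem_cons_self)
  have N1 : ∀ n γ w, DerN (ExR Rb) n γ w → ∀ (hγ : γ ∈ ZS) (u : List ℕ) (o : Option Q),
      γ = u.map Sum.inr ++ o.toList.map Sum.inl →
      ∀ z' : ZS, z'.1 = [] → Run δ ⟨γ, hγ⟩ w w z' := by
    intro n γ w h
    induction h with
    | nil n =>
      intro hγ u o _ z' hz'
      have : (⟨[], hγ⟩ : ZS) = z' := Subtype.ext hz'.symm
      rw [this]
      exact Run.nil z'
    | @ter n γ w x _ ih =>
      intro hγ u o huo z' hz'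
      have hx : x ∈ D := ((hmemE _).1 (hγ.1 _ List.mem_cons_self)) x rfl
      have hγ1 : γ ∈ ZS := ⟨fun y hy => hγ.1 y (List.mem_cons_of_mem _ hy), by
        have := hγ.2; simp only [List.length_cons] at this; omega⟩
      cases u with
      | nil =>
        cases o with
        | none => simp at huo
        | some q => simp at huo
      | cons y u =>
        simp only [List.map_cons, List.cons_append, List.cons.injEq, Sum.inr.injEq] at huo
        exact Run.cons (z' := ⟨γ, hγ1⟩) ⟨rfl, hx, Or.inl rfl⟩ (ih hγ1 u o huo.2 z' hz')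
    | @nt n q x γ w1 w2 hx _ hd2 ih1 ih2 =>
      intro hγ u o huo z' hz'
      have hγ0 : γ = [] := by
        cases u with
        | nil =>
          cases o with
          | none => simp at huo
          | some q' =>
            simp only [List.map_nil, Option.toList_some, List.map_cons, List.nil_append,
              List.cons.injEq] at huo
            exact huo.2
        | cons y u => simp at huo
      subst hγ0
      have hw2 : w2 = [] := hd2.nil_inv
      subst hw2
      rw [List.append_nil]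
      obtain ⟨y, u', o', h2, _⟩ := shape _ hx
      dsimp only at h2
      obtain ⟨hz1, hyD⟩ := hrhs _ hx y _ h2
      have hxZ : x ∈ ZS := by
        refine ⟨?_, ?_⟩
        · intro y' hy'
          rw [hmemE]
          rintro y'' rfl
          exact hRD _ hx.1 y'' hy'
        · have h1 := hK _ (hR' _ hx.1)
          rw [List.length_map] at h1
          dsimp only at h1
          omega
      have hrun := ih1 hxZ (y :: u') o' (by rw [h2]; simp) z' hz'
      have hne : ∀ (zz : ZS) (ww : List ℕ), Run δ zz ww ww z' → zz.1 = x →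
          Run δ ⟨[Sum.inl q], hγ⟩ ww ww z' := by
        intro zz ww hrun hzz
        cases hrun with
        | nil =>
          rw [hz'] at hzz
          rw [h2] at hzz
          simp at hzz
        | cons hd hrun' =>
          obtain ⟨-, hxD, h3 | ⟨q', h3, _⟩⟩ := hd
          · refine Run.cons ⟨rfl, hxD, Or.inr ⟨q, rfl, ?_⟩⟩ hrun'
            rw [← h3, hzz]
            exact hx
          · rw [hzz, h2] at h3
            simp at h3
      exact hne _ _ hrun rfl
  have N2 : ∀ z w w' z', Run δ z w w' z' → z'.1 = [] → w' = w ∧ (∀ x ∈ w, x ∈ D) ∧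
      Der (ExR Rb) z.1 w := by
    intro z w w' z' h
    induction h with
    | nil z =>
      intro hz
      exact ⟨rfl, by simp, by rw [hz]; exact Der.nil⟩
    | cons hd _ ih =>
      intro hz
      obtain ⟨rfl, h2, h3⟩ := ih hz
      obtain ⟨rfl, hxD, h4⟩ := hd
      refine ⟨rfl, ?_, ?_⟩
      · intro y hy
        rcases List.mem_cons.1 hy with rfl | hy
        · exact hxD
        · exact h2 y hy
      · rcases h4 with h4 | ⟨q, h4, h5⟩
        · rw [h4]; exact Der.ter _ h3
        · rw [h4]; exact Der.single h5 (Der.ter _ h3)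
  -- words of `Lb` are mapped to words of `H`
  have hUw : ∀ n γ w, DerN (ExR R) n γ w → (∀ x, Sum.inr x ∈ γ → x ∈ D) →
      ∀ (u' o : List ℕ), (∀ y ∈ u', y ∉ G.N) →
      (o = [] ∨ o = [U]) → γ.map (Sum.elim ν τ) = u' ++ o →
      ∃ v, (∀ y ∈ v, y ∈ Al) ∧ w.map τ = u' ++ v ∧ (o = [U] ∨ v = []) := by
    intro n γ w h
    induction h with
    | nil n =>
      intro _ u' o _ _ h
      have : u' = [] := by
        cases u' with
        | nil => rfl
        | cons y u' => simp at h
      subst this
      exact ⟨[], by simp, rfl, Or.inr rfl⟩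
    | @ter n γ w x _ ih =>
      intro hγD u' o hu' ho h
      cases u' with
      | nil =>
        exfalso
        rcases ho with rfl | rfl
        · simp at h
        · simp only [List.map_cons, Sum.elim_inr, List.nil_append, List.cons.injEq] at h
          have h8 := hD' x (hγD x List.mem_cons_self)
          rw [h.1] at h8
          exact hG.disj _ hA.U_mem h8
      | cons y u' =>
        simp only [List.map_cons, Sum.elim_inr, List.cons_append, List.cons.injEq] at h
        obtain ⟨v, h1, h2, h3⟩ := ih (fun z hz => hγD z (List.mem_cons_of_mem _ hz)) u' o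
          (fun z hz => hu' z (List.mem_cons_of_mem _ hz)) ho h.2
        exact ⟨v, h1, by rw [List.map_cons, h2, h.1]; rfl, h3⟩
    | @nt n q x γ w1 w2 hx _ hd2 ih1 ih2 =>
      intro _ u' o hu' ho h
      cases u' with
      | cons y u' =>
        exfalso
        simp only [List.map_cons, Sum.elim_inl, List.cons_append, List.cons.injEq] at h
        exact hu' y List.mem_cons_self (h.1 ▸ hN' q)
      | nil =>
        rcases ho with rfl | rfl
        · simp at h
        · simp only [List.map_cons, Sum.elim_inl, List.nil_append, List.cons.injEq] at h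
          have hγ0 : γ = [] := by simpa using h.2
          subst hγ0
          have hw2 : w2 = [] := hd2.nil_inv
          subst hw2
          have h1 := hR' _ hx
          dsimp only at h1
          rw [h.1] at h1
          obtain ⟨y, hy, h2⟩ := hA.uRules _ h1
          have hyN : ∀ z ∈ [y], z ∉ G.N := by
            intro z hz
            have : z = y := by simpa using hz
            subst this
            exact fun h => hG.disj _ h (hA.Al_T _ hy)
          obtain ⟨v, h3, h4, _⟩ : ∃ v, (∀ y ∈ v, y ∈ Al) ∧ w1.map τ = [y] ++ v ∧ True := by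
            rcases h2 with h2 | h2
            · obtain ⟨v, h3, h4, _⟩ := ih1 (hRD _ hx) [y] [] hyN (Or.inl rfl) (by simpa using h2)
              exact ⟨v, h3, h4, trivial⟩
            · obtain ⟨v, h3, h4, _⟩ := ih1 (hRD _ hx) [y] [U] hyN (Or.inr rfl)
                (by simpa using h2)
              exact ⟨v, h3, h4, trivial⟩
          refine ⟨y :: v, ?_, ?_, Or.inl rfl⟩
          · intro z hz
            rcases List.mem_cons.1 hz with rfl | hz
            · exact hy
            · exact h3 z hz
          · rw [List.append_nil, h4]; rfl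
  have hGb : Gen (H.dat hH) τ Lb := by
    have hDT : ∀ x ∈ D, τ x ∈ H.T := by
      intro x hx; rw [hA.T_eq]; exact hD' x hx
    have h1 := Gen.trans (gen_max hH τ D hDT) δ D z0 {z | z.1 = []} hDT (by
      rintro z x x' z' ⟨rfl, hx, _⟩
      exact ⟨hx, rfl⟩)
    convert h1 using 1
    ext w
    simp only [Set.mem_ofPred_eq]
    constructor
    · rintro ⟨n, hn⟩
      have hwD : ∀ x ∈ w, x ∈ D := DerN_letters (fun r hr => hRD r hr.1) hn (by simp)
      have hz' : ([] : List (Q ⊕ ℕ)) ∈ ZS := ⟨by simp, by simp⟩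
      refine ⟨w, ⟨hwD, ?_⟩, ⟨[], hz'⟩, rfl, N1 n _ _ hn _ [] (some s) rfl _ rfl⟩
      obtain ⟨m, β, rfl, hβ, hd⟩ := hn.single_inv
      have hβR : (s, β) ∈ R := hβ.1
      have h2 := hR' _ hβR
      dsimp only at h2
      rw [hs'] at h2
      have h3 : (G.S, β.map (Sum.elim ν τ)) ∉ H.P := by
        rcases hβ.2 with ⟨_, h⟩ | h
        · dsimp only at h; rwa [hs'] at h
        · exact absurd (h.symm.trans hs') hA.U_ne
      obtain ⟨x, u, h4, h5, h6⟩ := hA.sRules _ h2 h3
      have hd' : DerN (ExR R) m β w :=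
        derN_mono (fun _ => True) (fun q x _ h => ⟨h.1, fun _ _ => trivial⟩) hd
          (fun _ _ => trivial)
      rcases h5 with h5 | h5
      · obtain ⟨v, hv, hw, h7⟩ := hUw m β w hd' (hRD _ hβR) (x :: u) [] h4 (Or.inl rfl)
          (by simpa using h5)
        have hv0 : v = [] := by
          rcases h7 with h7 | h7
          · simp at h7
          · exact h7
        subst hv0
        rw [hw]
        exact h6 [] (by simp) (Or.inr rfl)
      · obtain ⟨v, hv, hw, _⟩ := hUw m β w hd' (hRD _ hβR) (x :: u) [U] h4 (Or.inr rfl)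
          (by simpa using h5)
        rw [hw]
        exact h6 v hv (Or.inl h5)
    · rintro ⟨w', _, z, hz, hr⟩
      obtain ⟨rfl, _, h3⟩ := N2 _ _ _ _ hr hz
      exact h3
  rw [hdec]
  have h2 := Gen.iUnion (G := H.dat hH) (τ := τ) Bool (fun b => if b then La else Lb) (by
    intro b
    cases b
    · exact hGb
    · exact hGa)
  convert h2 using 1
  ext w
  simp only [Set.mem_union, Set.mem_iUnion, Bool.exists_bool]
  constructor
  · rintro (h | h)
    · exact Or.inr (by simpa using h)
    · exact Or.inl (by simpa using h)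
  · rintro (h | h)
    · exact Or.inr (by simpa using h)
    · exact Or.inl (by simpa using h)

theorem family_subset (hG : G.IsCFG) (hH : H.IsCFG) (hA : Absorb G H U Al) :
    family G ⊆ family H := by
  intro L hL
  obtain ⟨τ, hτ⟩ := fam_gen hG hL
  exact gen_fam hH (absorb hG hH hA hτ)

end absorb

end Pool.Agent.W901.GF
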