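import Pool.Agent.W901.GF.Lin
import Pool.Agent.Helper599.Core

/-! The words which are not computations of a counter machine form a linear language. -/

set_option autoImplicit false

namespace Pool.Agent.W901.GF

open Pool.Agent.Helper599.Core

/-! ### Some members of the class -/

section lin
variable {α : Type}

/-- words of `L` preceded by repetitions of `x` -/
def Pre (x : α) (L : Set (List α)) : Set (List α) :=
  {w | ∃ i, ∃ w' ∈ L, w = List.replicate i x ++ w'}

theorem lin_pre (x : α) {L : Set (List α)} (h : Lin L) : Lin (Pre x L) := by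
  have h1 := Lin.iter {([x], [])} (Set.finite_singleton _) h
  convert h1 using 1
  ext w
  constructor
  · rintro ⟨i, w', hw', rfl⟩
    induction i with
    | zero => exact Iter.base (by simpa using hw')
    | succ i ih =>
      have := Iter.mem_step (P := {([x], [])}) (u := [x]) (v := []) rfl ih
      simpa [List.replicate_succ] using this
  · intro hw
    induction hw with
    | base h => exact ⟨0, _, h, by simp⟩
    | step hp _ ih =>
      obtain ⟨i, w', hw', rfl⟩ := ih
      simp only [Set.mem_singleton_iff, Prod.mk.injEq] at hp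
      obtain ⟨rfl, rfl⟩ := hp
      exact ⟨i + 1, w', hw', by simp [List.replicate_succ]⟩

/-- words with a factor in `L` -/
def Fac (L : Set (List α)) : Set (List α) := {w | ∃ u, ∃ f ∈ L, ∃ v, w = u ++ (f ++ v)}

theorem lin_fac [Finite α] {L : Set (List α)} (h : Lin L) : Lin (Fac L) := by
  have hfin : ((Set.range fun x : α => (([x], []) : List α × List α)) ∪
      (Set.range fun x : α => (([], [x]) : List α × List α))).Finite :=
    (Set.finite_range _).union (Set.finite_range _)
  have h1 := Lin.iter _ hfin h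
  convert h1 using 1
  ext w
  constructor
  · rintro ⟨u, f, hf, v, rfl⟩
    have h2 : f ++ v ∈ Iter ((Set.range fun x : α => (([x], []) : List α × List α)) ∪
      (Set.range fun x : α => (([], [x]) : List α × List α))) L := by
      induction v using List.reverseRecOn with
      | nil => exact Iter.base (by simpa using hf)
      | append_singleton v x ih =>
        have := Iter.mem_step (u := []) (v := [x]) (Or.inr ⟨x, rfl⟩) ih
        simpa using this
    induction u with
    | nil => simpa using h2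
    | cons x u ih =>
      have := Iter.mem_step (u := [x]) (v := []) (Or.inl ⟨x, rfl⟩) ih
      simpa using this
  · intro hw
    induction hw with
    | base h => exact ⟨[], _, h, [], by simp⟩
    | step hp _ ih =>
      obtain ⟨u', f, hf, v', rfl⟩ := ih
      rcases hp with ⟨x, hx⟩ | ⟨x, hx⟩
      · simp only [Prod.mk.injEq] at hx
        obtain ⟨rfl, rfl⟩ := hx
        exact ⟨x :: u', f, hf, v', by simp⟩
      · simp only [Prod.mk.injEq] at hx
        obtain ⟨rfl, rfl⟩ := hx
        exact ⟨u', f, hf, v' ++ [x], by simp⟩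

/-- words whose last letter is in `E` -/
def EndIn (E : Set α) : Set (List α) := {w | ∃ u, ∃ x ∈ E, w = u ++ [x]}

theorem lin_endIn [Finite α] (E : Set α) : Lin (EndIn E) := by
  have h0 : Lin ((fun x : α => [x]) '' E) :=
    Lin.of_finite ((Set.toFinite E).image _) (by rintro ⟨x, _, h⟩; simp at h)
  have h1 := Lin.iter (Set.range fun x : α => (([x], []) : List α × List α))
    (Set.finite_range _) h0
  convert h1 using 1
  ext w
  constructor
  · rintro ⟨u, x, hx, rfl⟩
    induction u with
    | nil => exact Iter.base ⟨x, hx, rfl⟩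
    | cons y u ih =>
      have := Iter.mem_step (P := Set.range fun x : α => (([x], []) : List α × List α))
        (u := [y]) (v := []) ⟨y, rfl⟩ ih
      simpa using this
  · intro hw
    induction hw with
    | base h =>
      obtain ⟨x, hx, rfl⟩ := h
      exact ⟨[], x, hx, rfl⟩
    | step hp _ ih =>
      obtain ⟨u', x, hx, rfl⟩ := ih
      obtain ⟨y, hy⟩ := hp
      simp only [Prod.mk.injEq] at hy
      obtain ⟨rfl, rfl⟩ := hy
      exact ⟨y :: u', x, hx, by simp⟩

/-- comparison of two blocks of letters `x` -/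
def Cmp (x : α) (p s p' s' : ℕ) (Mid : Set (List α)) : Set (List α) :=
  {w | ∃ i i', ∃ m ∈ Mid, p * i + s ≠ p' * i' + s' ∧
    w = List.replicate i x ++ m ++ List.replicate i' x}

theorem rep_assoc (x : α) (i j k l : ℕ) (m : List α) :
    List.replicate i x ++ (List.replicate j x ++ m ++ List.replicate k x) ++ List.replicate l x =
      List.replicate (i + j) x ++ m ++ List.replicate (k + l) x := by
  rw [List.replicate_add, List.replicate_add]
  simp only [List.append_assoc]

theorem lin_cmp (x : α) {p s p' s' : ℕ} {Mid : Set (List α)} (hp : s < p) (hp' : s' < p')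
    (hM : Lin Mid) : Lin (Cmp x p s p' s' Mid) := by
  -- the two kinds of inequality
  let K := p + s + p' + s' + 1
  let I₁ : Set (ℕ × ℕ) := {z | z.1 ≤ K ∧ z.2 ≤ K ∧ p * z.1 + s < p' * z.2 + s'}
  let I₂ : Set (ℕ × ℕ) := {z | z.1 ≤ K ∧ z.2 ≤ K ∧ p' * z.2 + s' < p * z.1 + s}
  have hfin : ({z : ℕ × ℕ | z.1 ≤ K ∧ z.2 ≤ K}).Finite := by
    refine ((Set.finite_Iic K).prod (Set.finite_Iic K)).subset ?_
    rintro ⟨a, b⟩ ⟨h1, h2⟩
    exact ⟨h1, h2⟩
  have hI₁ : I₁.Finite := hfin.subset (fun z hz => ⟨hz.1, hz.2.1⟩)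
  have hI₂ : I₂.Finite := hfin.subset (fun z hz => ⟨hz.1, hz.2.1⟩)
  let W : ℕ × ℕ → Set (List α) := fun z =>
    {y | ∃ w ∈ Mid, y = List.replicate z.1 x ++ w ++ List.replicate z.2 x}
  have hW : ∀ z, Lin (W z) := fun z => Lin.wrap _ _ hM
  let B₁ : Set (List α) := ⋃ z ∈ I₁, W z
  let B₂ : Set (List α) := ⋃ z ∈ I₂, W z
  have hB₁ : Lin B₁ := Lin.biUnion hI₁ (fun z _ => hW z)
  have hB₂ : Lin B₂ := Lin.biUnion hI₂ (fun z _ => hW z)
  let P₁ : Set (List α × List α) := {(List.replicate p' x, List.replicate p x), ([], [x])}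
  let P₂ : Set (List α × List α) := {(List.replicate p' x, List.replicate p x), ([x], [])}
  have h1 := Lin.iter P₁ (Set.toFinite _) hB₁
  have h2 := Lin.iter P₂ (Set.toFinite _) hB₂
  have h3 := Lin.union h1 h2
  have memB₁ : ∀ i i' m, m ∈ Mid → i ≤ K → i' ≤ K → p * i + s < p' * i' + s' →
      List.replicate i x ++ m ++ List.replicate i' x ∈ B₁ := by
    intro i i' m hm h1 h2 h3
    exact Set.mem_biUnion (show (i, i') ∈ I₁ from ⟨h1, h2, h3⟩) ⟨m, hm, rfl⟩
  have memB₂ : ∀ i i' m, m ∈ Mid → i ≤ K → i' ≤ K → p' * i' + s' < p * i + s →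
      List.replicate i x ++ m ++ List.replicate i' x ∈ B₂ := by
    intro i i' m hm h1 h2 h3
    exact Set.mem_biUnion (show (i, i') ∈ I₂ from ⟨h1, h2, h3⟩) ⟨m, hm, rfl⟩
  have iterK : ∀ (P : Set (List α × List α)) (L : Set (List α)) (m : List α),
      (List.replicate p' x, List.replicate p x) ∈ P → ∀ k i i',
      List.replicate i x ++ m ++ List.replicate i' x ∈ Iter P L →
      List.replicate (p' * k + i) x ++ m ++ List.replicate (i' + p * k) x ∈ Iter P L := by
    intro P L m hP k i i' h
    induction k with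
    | zero => simpa using h
    | succ k ih =>
      have := Iter.mem_step hP ih
      rw [rep_assoc] at this
      convert this using 3 <;> ring_nf
  have key1 : ∀ i i' m, m ∈ Mid → p * i + s < p' * i' + s' →
      List.replicate i x ++ m ++ List.replicate i' x ∈ Iter P₁ B₁ := by
    intro i i' m hm hlt
    -- first the remainder
    obtain ⟨k, i0, hi, hi0⟩ : ∃ k i0, i = p' * k + i0 ∧ i0 < p' :=
      ⟨i / p', i % p', (Nat.div_add_mod _ _).symm, Nat.mod_lt _ (by omega)⟩
    have hge : p * k ≤ i' := by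
      by_contra hcon
      have h4 : i' + 1 ≤ p * k := by omega
      have h5 : p' * (i' + 1) ≤ p' * (p * k) := Nat.mul_le_mul_left _ h4
      have h6 : p * i = p' * (p * k) + p * i0 := by rw [hi]; ring
      have h7 : p' * (i' + 1) = p' * i' + p' := by ring
      omega
    obtain ⟨d, hd⟩ : ∃ d, i' = d + p * k := ⟨i' - p * k, by omega⟩
    have hlt' : p * i0 + s < p' * d + s' := by
      have h6 : p * i = p' * (p * k) + p * i0 := by rw [hi]; ring
      have h7 : p' * i' = p' * d + p' * (p * k) := by rw [hd]; ring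
      omega
    have hbase : List.replicate i0 x ++ m ++ List.replicate d x ∈ Iter P₁ B₁ := by
      by_cases hdK : d ≤ K
      · exact Iter.base (memB₁ i0 d m hm (by omega) hdK hlt')
      · have h0 : List.replicate i0 x ++ m ++ List.replicate K x ∈ Iter P₁ B₁ := by
          refine Iter.base (memB₁ i0 K m hm (by omega) le_rfl ?_)
          have h8 : p * i0 ≤ p * p' := Nat.mul_le_mul_left _ (by omega)
          have h9 : p' * K = p * p' + p' * (s + p' + s' + 1) := by simp only [K]; ring
          have h10 : s + 1 ≤ p' * (s + p' + s' + 1) := by nlinarith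
          omega
        have hadd : ∀ t, List.replicate i0 x ++ m ++ List.replicate (K + t) x ∈ Iter P₁ B₁ := by
          intro t
          induction t with
          | zero => simpa using h0
          | succ t ih =>
            have := Iter.mem_step (u := []) (v := [x]) (Or.inr rfl) ih
            rw [List.nil_append, List.append_assoc, ← List.replicate_succ'] at this
            exact this
        have := hadd (d - K)
        rwa [show K + (d - K) = d by omega] at this
    have := iterK P₁ B₁ m (Or.inl rfl) k i0 d hbase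
    rwa [← hi, ← hd] at this
  have key2 : ∀ i i' m, m ∈ Mid → p' * i' + s' < p * i + s →
      List.replicate i x ++ m ++ List.replicate i' x ∈ Iter P₂ B₂ := by
    intro i i' m hm hlt
    obtain ⟨k, i0, hi, hi0⟩ : ∃ k i0, i' = p * k + i0 ∧ i0 < p :=
      ⟨i' / p, i' % p, (Nat.div_add_mod _ _).symm, Nat.mod_lt _ (by omega)⟩
    have hge : p' * k ≤ i := by
      by_contra hcon
      have h4 : i + 1 ≤ p' * k := by omega
      have h5 : p * (i + 1) ≤ p * (p' * k) := Nat.mul_le_mul_left _ h4
      have h6 : p' * i' = p * (p' * k) + p' * i0 := by rw [hi]; ring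
      have h7 : p * (i + 1) = p * i + p := by ring
      omega
    obtain ⟨d, hd⟩ : ∃ d, i = p' * k + d := ⟨i - p' * k, by omega⟩
    have hlt' : p' * i0 + s' < p * d + s := by
      have h6 : p' * i' = p * (p' * k) + p' * i0 := by rw [hi]; ring
      have h7 : p * i = p * (p' * k) + p * d := by rw [hd]; ring
      omega
    have hbase : List.replicate d x ++ m ++ List.replicate i0 x ∈ Iter P₂ B₂ := by
      by_cases hdK : d ≤ K
      · exact Iter.base (memB₂ d i0 m hm hdK (by omega) hlt')
      · have h0 : List.replicate K x ++ m ++ List.replicate i0 x ∈ Iter P₂ B₂ := by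
          refine Iter.base (memB₂ K i0 m hm le_rfl (by omega) ?_)
          have h8 : p' * i0 ≤ p' * p := Nat.mul_le_mul_left _ (by omega)
          have h9 : p * K = p' * p + p * (p + s + s' + 1) := by simp only [K]; ring
          have h10 : s' + 1 ≤ p * (p + s + s' + 1) := by nlinarith
          omega
        have hadd : ∀ t, List.replicate (t + K) x ++ m ++ List.replicate i0 x ∈ Iter P₂ B₂ := by
          intro t
          induction t with
          | zero => simpa using h0
          | succ t ih =>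
            have := Iter.mem_step (u := [x]) (v := []) (Or.inr rfl) ih
            rw [List.append_nil, ← List.append_assoc, ← List.append_assoc] at this
            rw [show t + 1 + K = (t + K) + 1 by omega, List.replicate_succ]
            exact this
        have := hadd (d - K)
        rwa [show (d - K) + K = d by omega] at this
    have := iterK P₂ B₂ m (Or.inl rfl) k d i0 hbase
    rwa [← hd, Nat.add_comm, ← hi] at this
  convert h3 using 1
  ext w
  constructor
  · rintro ⟨i, i', m, hm, hne, rfl⟩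
    rcases Nat.lt_or_gt_of_ne hne with h | h
    · exact Or.inl (key1 i i' m hm h)
    · exact Or.inr (key2 i i' m hm h)
  · rintro (h | h)
    · have : ∃ i i', ∃ m ∈ Mid, p * i + s < p' * i' + s' ∧
          w = List.replicate i x ++ m ++ List.replicate i' x := by
        induction h with
        | base h =>
          obtain ⟨z, hz, m, hm, rfl⟩ := Set.mem_iUnion₂.1 h
          exact ⟨z.1, z.2, m, hm, hz.2.2, rfl⟩
        | step hp _ ih =>
          obtain ⟨i, i', m, hm, hlt, rfl⟩ := ih
          rcases hp with hp | hp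
          · simp only [Prod.mk.injEq] at hp
            obtain ⟨rfl, rfl⟩ := hp
            refine ⟨p' + i, i' + p, m, hm, ?_, rep_assoc _ _ _ _ _ _⟩
            have e1 : p * (p' + i) = p * p' + p * i := by ring
            have e2 : p' * (i' + p) = p' * i' + p * p' := by ring
            omega
          · simp only [Set.mem_singleton_iff, Prod.mk.injEq] at hp
            obtain ⟨rfl, rfl⟩ := hp
            refine ⟨i, i' + 1, m, hm, ?_, ?_⟩
            · have e2 : p' * (i' + 1) = p' * i' + p' := by ring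
              omega
            · simp [List.replicate_succ']
      obtain ⟨i, i', m, hm, hlt, rfl⟩ := this
      exact ⟨i, i', m, hm, by omega, rfl⟩
    · have : ∃ i i', ∃ m ∈ Mid, p' * i' + s' < p * i + s ∧
          w = List.replicate i x ++ m ++ List.replicate i' x := by
        induction h with
        | base h =>
          obtain ⟨z, hz, m, hm, rfl⟩ := Set.mem_iUnion₂.1 h
          exact ⟨z.1, z.2, m, hm, hz.2.2, rfl⟩
        | step hp _ ih =>
          obtain ⟨i, i', m, hm, hlt, rfl⟩ := ih
          rcases hp with hp | hp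
          · simp only [Prod.mk.injEq] at hp
            obtain ⟨rfl, rfl⟩ := hp
            refine ⟨p' + i, i' + p, m, hm, ?_, rep_assoc _ _ _ _ _ _⟩
            have e1 : p * (p' + i) = p * p' + p * i := by ring
            have e2 : p' * (i' + p) = p' * i' + p * p' := by ring
            omega
          · simp only [Set.mem_singleton_iff, Prod.mk.injEq] at hp
            obtain ⟨rfl, rfl⟩ := hp
            refine ⟨i + 1, i', m, hm, ?_, ?_⟩
            · have e2 : p * (i + 1) = p * i + p := by ring
              omega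
            · simp [List.replicate_succ]
      obtain ⟨i, i', m, hm, hlt, rfl⟩ := this
      exact ⟨i, i', m, hm, by omega, rfl⟩

end lin

/-! ### Histories -/

/-- letters of histories; `st q r` starts a configuration with state `q` and residues `r` -/
inductive Lt (Q : Type) (B : ℕ) : Type
  | st (q : Q) (r : Bool → Fin B) : Lt Q B
  | a : Lt Q B
  | c : Lt Q B
  | b : Lt Q B
  | stop : Lt Q B

namespace Lt
variable {Q : Type} {B : ℕ}

/-- allowed pairs of adjacent letters -/
def Adj : Lt Q B → Lt Q B → Prop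
  | .st _ _, y => y = .a ∨ y = .c
  | .a, y => y = .a ∨ y = .c
  | .c, y => y = .b ∨ y = .stop ∨ ∃ q r, y = .st q r
  | .b, y => y = .b ∨ y = .stop ∨ ∃ q r, y = .st q r
  | .stop, _ => False

instance [Finite Q] : Finite (Lt Q B) := by
  refine Finite.of_injective (fun x : Lt Q B => (match x with
    | .st q r => Sum.inl (q, r)
    | .a => Sum.inr 0
    | .c => Sum.inr 1
    | .b => Sum.inr 2
    | .stop => Sum.inr 3 : (Q × (Bool → Fin B)) ⊕ Fin 4)) ?_
  intro x y h
  cases x <;> cases y <;> simp_all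

end Lt

open Lt

variable {Q : Type} (M : Sys Q Bool)

/-- wrong next letter after a configuration -/
def BadX (q : Q) (r : Bool → Fin M.B) : Lt Q M.B → Prop
  | .stop => M.nxt q r ≠ none
  | .st q' _ => M.nxt q r ≠ some q'
  | _ => False

/-- forbidden factors: wrong state -/
def EQ : Set (List (Lt Q M.B)) :=
  {w | ∃ q r X i j, BadX M q r X ∧
    w = st q r :: (List.replicate i a ++ c :: (List.replicate j b ++ [X]))}

/-- forbidden factors: wrong first counter -/
def E1 : Set (List (Lt Q M.B)) :=
  {w | ∃ q r q' r' i j i', M.nxt q r = some q' ∧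
    M.a q r true * i + M.b q r true ≠ M.B * i' + r' true ∧
    w = st q r :: (List.replicate i a ++ c :: (List.replicate j b ++ st q' r' ::
      (List.replicate i' a ++ [c])))}

/-- forbidden factors: wrong second counter -/
def E2 : Set (List (Lt Q M.B)) :=
  {w | ∃ q r q' r' i j i' j' X, M.nxt q r = some q' ∧ X ≠ b ∧
    M.a q r false * j + M.b q r false ≠ M.B * j' + r' false ∧
    w = st q r :: (List.replicate i a ++ c :: (List.replicate j b ++ st q' r' ::
      (List.replicate i' a ++ c :: (List.replicate j' b ++ [X]))))}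

/-- forbidden factors: wrong pairs of letters -/
def E0 : Set (List (Lt Q M.B)) := {w | ∃ x y, ¬ Adj x y ∧ w = [x, y]}

/-- the forbidden factors -/
def Forb : Set (List (Lt Q M.B)) := E0 M ∪ (EQ M ∪ (E1 M ∪ E2 M))

/-- the words which are not ends of histories -/
def L0 : Set (List (Lt Q M.B)) := Fac (Forb M) ∪ EndIn {x | x ≠ stop}

theorem lin_EQ [Finite Q] : Lin (EQ M) := by
  have h : Lin (⋃ z ∈ {z : Q × (Bool → Fin M.B) × Lt Q M.B | BadX M z.1 z.2.1 z.2.2},
      {y : List (Lt Q M.B) | ∃ w ∈ Pre a {y | ∃ w ∈ Pre b {[z.2.2]}, y = [c] ++ w ++ []},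
        y = [st z.1 z.2.1] ++ w ++ []}) := by
    refine Lin.biUnion (Set.toFinite _) (fun z _ => ?_)
    exact Lin.wrap _ _ (lin_pre _ (Lin.wrap _ _ (lin_pre _ (Lin.single _ (by simp)))))
  convert h using 1
  ext w
  simp only [Set.mem_iUnion]
  constructor
  · rintro ⟨q, r, X, i, j, hX, rfl⟩
    refine ⟨(q, r, X), hX, _, ⟨i, _, ⟨_, ⟨j, _, rfl, rfl⟩, rfl⟩, rfl⟩, ?_⟩
    simp
  · rintro ⟨⟨q, r, X⟩, hX, _, ⟨i, _, ⟨_, ⟨j, _, rfl, rfl⟩, rfl⟩, rfl⟩, rfl⟩
    exact ⟨q, r, X, i, j, hX, by simp⟩

theorem lin_E0 [Finite Q] : Lin (E0 M) := by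
  apply Lin.of_finite
  · have : E0 M ⊆ Set.range (fun z : Lt Q M.B × Lt Q M.B => [z.1, z.2]) := by
      rintro _ ⟨x, y, _, rfl⟩
      exact ⟨(x, y), rfl⟩
    exact (Set.finite_range _).subset this
  · rintro ⟨x, y, _, h⟩
    simp at h

theorem lin_E1 [Finite Q] (hM : ∀ q r, M.nxt q r ≠ none → ∀ j, M.b q r j < M.a q r j) :
    Lin (E1 M) := by
  have h : Lin (⋃ z ∈ {z : Q × (Bool → Fin M.B) × Q × (Bool → Fin M.B) |
      M.nxt z.1 z.2.1 = some z.2.2.1},
      {y : List (Lt Q M.B) | ∃ w ∈ Cmp a (M.a z.1 z.2.1 true) (M.b z.1 z.2.1 true) M.B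
        (z.2.2.2 true) {y | ∃ w ∈ Pre b {[st z.2.2.1 z.2.2.2]}, y = [c] ++ w ++ []},
        y = [st z.1 z.2.1] ++ w ++ [c]}) := by
    refine Lin.biUnion (Set.toFinite _) (fun z hz => ?_)
    refine Lin.wrap _ _ (lin_cmp _ (hM _ _ ?_ _) (z.2.2.2 true).2
      (Lin.wrap _ _ (lin_pre _ (Lin.single _ (by simp)))))
    have hz' : M.nxt z.1 z.2.1 = some z.2.2.1 := hz
    rw [hz']; simp
  convert h using 1
  ext w
  simp only [Set.mem_iUnion]
  constructor
  · rintro ⟨q, r, q', r', i, j, i', hn, hne, rfl⟩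
    refine ⟨(q, r, q', r'), hn, _, ⟨i, i', _, ⟨_, ⟨j, _, rfl, rfl⟩, rfl⟩, hne, rfl⟩, ?_⟩
    simp
  · rintro ⟨⟨q, r, q', r'⟩, hn, _, ⟨i, i', _, ⟨_, ⟨j, _, rfl, rfl⟩, rfl⟩, hne, rfl⟩, rfl⟩
    exact ⟨q, r, q', r', i, j, i', hn, hne, by simp⟩

theorem lin_E2 [Finite Q] (hM : ∀ q r, M.nxt q r ≠ none → ∀ j, M.b q r j < M.a q r j) :
    Lin (E2 M) := by
  have h : Lin (⋃ z ∈ {z : Q × (Bool → Fin M.B) × Q × (Bool → Fin M.B) × Lt Q M.B |
      M.nxt z.1 z.2.1 = some z.2.2.1 ∧ z.2.2.2.2 ≠ b},
      {y : List (Lt Q M.B) | ∃ w ∈ Pre a {y | ∃ w ∈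
        Cmp b (M.a z.1 z.2.1 false) (M.b z.1 z.2.1 false) M.B
        (z.2.2.2.1 false) {y | ∃ w ∈ Pre a {[c]}, y = [st z.2.2.1 z.2.2.2.1] ++ w ++ []},
        y = [c] ++ w ++ [z.2.2.2.2]}, y = [st z.1 z.2.1] ++ w ++ []}) := by
    refine Lin.biUnion (Set.toFinite _) (fun z hz => ?_)
    refine Lin.wrap _ _ (lin_pre _ (Lin.wrap _ _ (lin_cmp _ (hM _ _ ?_ _) (z.2.2.2.1 false).2
      (Lin.wrap _ _ (lin_pre _ (Lin.single _ (by simp)))))))
    have hz' : M.nxt z.1 z.2.1 = some z.2.2.1 := hz.1
    rw [hz']; simp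
  convert h using 1
  ext w
  simp only [Set.mem_iUnion]
  constructor
  · rintro ⟨q, r, q', r', i, j, i', j', X, hn, hX, hne, rfl⟩
    refine ⟨(q, r, q', r', X), ⟨hn, hX⟩, _, ⟨i, _, ⟨_, ⟨j, j', _, ⟨_, ⟨i', _, rfl, rfl⟩, rfl⟩,
      hne, rfl⟩, rfl⟩, rfl⟩, ?_⟩
    simp
  · rintro ⟨⟨q, r, q', r', X⟩, ⟨hn, hX⟩, _, ⟨i, _, ⟨_, ⟨j, j', _, ⟨_, ⟨i', _, rfl, rfl⟩, rfl⟩,
      hne, rfl⟩, rfl⟩, rfl⟩, rfl⟩
    exact ⟨q, r, q', r', i, j, i', j', X, hn, hX, hne, by simp⟩

theorem lin_L0 [Finite Q] (hM : ∀ q r, M.nxt q r ≠ none → ∀ j, M.b q r j < M.a q r j) :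
    Lin (L0 M) :=
  Lin.union (lin_fac (Lin.union (lin_E0 M) (Lin.union (lin_EQ M)
    (Lin.union (lin_E1 M hM) (lin_E2 M hM))))) (lin_endIn _)

variable {M}

theorem L0_suffix {u w : List (Lt Q M.B)} (h : u ++ w ∉ L0 M) : w ∉ L0 M := by
  intro hw
  apply h
  rcases hw with ⟨u', f, hf, v, rfl⟩ | ⟨u', x, hx, rfl⟩
  · exact Or.inl ⟨u ++ u', f, hf, v, by simp⟩
  · exact Or.inr ⟨u ++ u', x, hx, by simp⟩

theorem L0_adj {u v : List (Lt Q M.B)} {x y : Lt Q M.B} (h : u ++ x :: y :: v ∉ L0 M) :
    Adj x y := by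
  by_contra hcon
  exact h (Or.inl ⟨u, [x, y], Or.inl ⟨x, y, hcon, rfl⟩, v, by simp⟩)

theorem L0_prefix {f v : List (Lt Q M.B)} (h : f ++ v ∉ L0 M) : f ∉ Forb M :=
  fun hf => h (Or.inl ⟨[], f, hf, v, by simp⟩)

theorem parse1 (v : List (Lt Q M.B)) : ∀ y : Lt Q M.B, (y = a ∨ ∃ q r, y = st q r) →
    y :: v ∉ L0 M → ∃ i v', v = List.replicate i a ++ c :: v' := by
  induction v with
  | nil =>
    intro y hy h
    exfalso
    apply h
    refine Or.inr ⟨[], y, ?_, rfl⟩
    rcases hy with rfl | ⟨q, r, rfl⟩ <;> simp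
  | cons z v ih =>
    intro y hy h
    have h1 : Adj y z := L0_adj (u := []) h
    have h2 : z = a ∨ z = c := by
      rcases hy with rfl | ⟨q, r, rfl⟩ <;> exact h1
    rcases h2 with rfl | rfl
    · obtain ⟨i, v', rfl⟩ := ih a (Or.inl rfl) (L0_suffix (u := [y]) h)
      exact ⟨i + 1, v', by simp [List.replicate_succ]⟩
    · exact ⟨0, v, rfl⟩

theorem parse2 (v : List (Lt Q M.B)) : ∀ y : Lt Q M.B, (y = c ∨ y = b) →
    y :: v ∉ L0 M → ∃ j X v', X ≠ b ∧ v = List.replicate j b ++ X :: v' := by
  induction v with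
  | nil =>
    intro y hy h
    exfalso
    apply h
    refine Or.inr ⟨[], y, ?_, rfl⟩
    rcases hy with rfl | rfl <;> simp
  | cons z v ih =>
    intro y hy h
    by_cases hz : z = b
    · subst hz
      obtain ⟨j, X, v', hX, rfl⟩ := ih b (Or.inr rfl) (L0_suffix (u := [y]) h)
      exact ⟨j + 1, X, v', hX, by simp [List.replicate_succ]⟩
    · exact ⟨0, z, v, hz, rfl⟩

/-- counters from residues and quotients -/
def vec (M : Sys Q Bool) (r : Bool → Fin M.B) (m₁ m₂ : ℕ) : Bool → ℕ :=
  fun j => M.B * (if j then m₁ else m₂) + r j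

theorem res_vec (r : Bool → Fin M.B) (m₁ m₂ : ℕ) : M.res (vec M r m₁ m₂) = r := by
  funext j
  apply Fin.ext
  simp only [Sys.res, vec]
  rw [Nat.mul_add_mod, Nat.mod_eq_of_lt (r j).2]

theorem div_vec (r : Bool → Fin M.B) (m₁ m₂ : ℕ) (j : Bool) :
    vec M r m₁ m₂ j / M.B = if j then m₁ else m₂ := by
  simp only [vec]
  rw [Nat.mul_add_div M.hB, Nat.div_eq_of_lt (r j).2, Nat.add_zero]

theorem vec_res (n : Bool → ℕ) : vec M (M.res n) (n true / M.B) (n false / M.B) = n := by
  funext j
  simp only [vec, Sys.res]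
  cases j
  · simpa using Nat.div_add_mod (n false) M.B
  · simpa using Nat.div_add_mod (n true) M.B

/-- the word of a configuration followed by `z` -/
def cword (M : Sys Q Bool) (q : Q) (r : Bool → Fin M.B) (m₁ m₂ : ℕ) (z : List (Lt Q M.B)) :
    List (Lt Q M.B) :=
  st q r :: (List.replicate m₁ a ++ c :: (List.replicate m₂ b ++ z))

theorem halts_of_word : ∀ (n : ℕ) (q : Q) (r : Bool → Fin M.B) (m₁ m₂ : ℕ) (X : Lt Q M.B)
    (v : List (Lt Q M.B)), v.length ≤ n → X ≠ b → cword M q r m₁ m₂ (X :: v) ∉ L0 M →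
    M.Halts (some q) (vec M r m₁ m₂) := by
  intro n
  induction n using Nat.strong_induction_on with
  | _ n ih =>
  intro q r m₁ m₂ X v hlen hX hw
  -- the letter `X`
  have hX' : X = stop ∨ ∃ q' r', X = st q' r' := by
    have h1 : ∃ y : Lt Q M.B, (y = c ∨ y = b) ∧ ∃ u, cword M q r m₁ m₂ (X :: v) =
        u ++ y :: X :: v := by
      rcases Nat.eq_zero_or_pos m₂ with rfl | hpos
      · exact ⟨c, Or.inl rfl, st q r :: List.replicate m₁ a, by simp [cword]⟩
      · obtain ⟨k, rfl⟩ : ∃ k, m₂ = k + 1 := ⟨m₂ - 1, by omega⟩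
        exact ⟨b, Or.inr rfl, st q r :: (List.replicate m₁ a ++ c :: List.replicate k b), by
          simp [cword, List.replicate_succ']⟩
    obtain ⟨y, hy, u, hu⟩ := h1
    rw [hu] at hw
    have h2 := L0_adj hw
    rcases hy with rfl | rfl
    · rcases h2 with h2 | h2 | h2
      · exact absurd h2 hX
      · exact Or.inl h2
      · exact Or.inr h2
    · rcases h2 with h2 | h2 | h2
      · exact absurd h2 hX
      · exact Or.inl h2
      · exact Or.inr h2
  have hbad : ¬ BadX M q r X := by
    intro hb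
    have h1 : cword M q r m₁ m₂ (X :: v) = st q r :: (List.replicate m₁ a ++ c ::
      (List.replicate m₂ b ++ [X])) ++ v := by simp [cword]
    rw [h1] at hw
    exact L0_prefix hw (Or.inr (Or.inl ⟨q, r, X, m₁, m₂, hb, rfl⟩))
  refine Sys.Halts.step q _ ?_
  rw [res_vec]
  rcases hX' with rfl | ⟨q', r', rfl⟩
  · have : M.nxt q r = none := by
      by_contra h; exact hbad h
    rw [this]
    exact Sys.Halts.stop _
  · have hn : M.nxt q r = some q' := by
      by_contra h; exact hbad h
    rw [hn]
    have hsuf : st q' r' :: v ∉ L0 M := by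
      have h1 : cword M q r m₁ m₂ (st q' r' :: v) = (st q r :: (List.replicate m₁ a ++ c ::
        List.replicate m₂ b)) ++ (st q' r' :: v) := by simp [cword]
      rw [h1] at hw
      exact L0_suffix hw
    obtain ⟨i', v₁, rfl⟩ := parse1 v _ (Or.inr ⟨q', r', rfl⟩) hsuf
    have hsuf2 : c :: v₁ ∉ L0 M := by
      have h1 : st q' r' :: (List.replicate i' a ++ c :: v₁) =
        (st q' r' :: List.replicate i' a) ++ c :: v₁ := by simp
      rw [h1] at hsuf
      exact L0_suffix hsuf
    obtain ⟨j', X', v₂, hX'', rfl⟩ := parse2 v₁ _ (Or.inl rfl) hsuf2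
    have e1 : M.a q r true * m₁ + M.b q r true = M.B * i' + r' true := by
      by_contra hne
      have h1 : cword M q r m₁ m₂ (st q' r' :: (List.replicate i' a ++ c ::
          (List.replicate j' b ++ X' :: v₂))) =
          (st q r :: (List.replicate m₁ a ++ c :: (List.replicate m₂ b ++ st q' r' ::
            (List.replicate i' a ++ [c])))) ++ (List.replicate j' b ++ X' :: v₂) := by
        simp [cword]
      rw [h1] at hw
      exact L0_prefix hw (Or.inr (Or.inr (Or.inl ⟨q, r, q', r', m₁, m₂, i', hn, hne, rfl⟩)))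
    have e2 : M.a q r false * m₂ + M.b q r false = M.B * j' + r' false := by
      by_contra hne
      have h1 : cword M q r m₁ m₂ (st q' r' :: (List.replicate i' a ++ c ::
          (List.replicate j' b ++ X' :: v₂))) =
          (st q r :: (List.replicate m₁ a ++ c :: (List.replicate m₂ b ++ st q' r' ::
            (List.replicate i' a ++ c :: (List.replicate j' b ++ [X']))))) ++ v₂ := by
        simp [cword]
      rw [h1] at hw
      exact L0_prefix hw (Or.inr (Or.inr (Or.inr
        ⟨q, r, q', r', m₁, m₂, i', j', X', hn, hX'', hne, rfl⟩)))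
    have hnn : M.nn q (vec M r m₁ m₂) = vec M r' i' j' := by
      funext j
      simp only [Sys.nn, res_vec, div_vec]
      cases j
      · simpa [vec] using e2
      · simpa [vec] using e1
    rw [hnn]
    refine ih v₂.length ?_ q' r' i' j' X' v₂ le_rfl hX'' hsuf
    simp only [List.length_append, List.length_cons, List.length_replicate] at hlen
    omega

theorem rep_inj {α : Type} {x y y' : α} (hy : y ≠ x) (hy' : y' ≠ x) {i i' : ℕ}
    {l l' : List α} (h : List.replicate i x ++ y :: l = List.replicate i' x ++ y' :: l') :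
    i = i' ∧ y = y' ∧ l = l' := by
  induction i generalizing i' with
  | zero =>
    cases i' with
    | zero => simpa using h
    | succ i' =>
      rw [List.replicate_succ] at h
      simp only [List.replicate_zero, List.nil_append, List.cons_append, List.cons.injEq] at h
      exact absurd h.1 hy
  | succ i ih =>
    cases i' with
    | zero =>
      rw [List.replicate_succ] at h
      simp only [List.replicate_zero, List.nil_append, List.cons_append, List.cons.injEq] at h
      exact absurd h.1.symm hy'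
    | succ i' =>
      rw [List.replicate_succ, List.replicate_succ] at h
      simp only [List.cons_append, List.cons.injEq, true_and] at h
      obtain ⟨h1, h2, h3⟩ := ih h
      exact ⟨by omega, h2, h3⟩

/-- a word starting with a letter `st` inside `g ++ z`, where `g` has no such letter -/
theorem shift {g z u x : List (Lt Q M.B)} {q : Q} {r : Bool → Fin M.B}
    (hg : ∀ y ∈ g, ∀ q' r', y ≠ st q' r') (h : g ++ z = u ++ st q r :: x) :
    ∃ u', z = u' ++ st q r :: x := by
  rcases List.append_eq_append_iff.1 h with ⟨as, h1, h2⟩ | ⟨bs, h1, h2⟩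
  · exact ⟨as, h2⟩
  · cases bs with
    | nil =>
      refine ⟨[], ?_⟩
      simpa using h2.symm
    | cons y bs =>
      exfalso
      simp only [List.cons_append, List.cons.injEq] at h2
      refine hg y ?_ q r h2.1.symm
      rw [h1]; simp

theorem chain_cword {q : Q} {r : Bool → Fin M.B} {m₁ m₂ : ℕ} {X : Lt Q M.B}
    {v : List (Lt Q M.B)} (hX : X = stop ∨ ∃ q' r', X = st q' r')
    (hz : List.IsChain Adj (X :: v)) : List.IsChain Adj (cword M q r m₁ m₂ (X :: v)) := by
  have h2 : ∀ m (y : Lt Q M.B), (y = c ∨ y = b) →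
      List.IsChain Adj (y :: (List.replicate m b ++ X :: v)) := by
    intro m
    induction m with
    | zero =>
      intro y hy
      simp only [List.replicate_zero, List.nil_append]
      rw [List.isChain_cons_cons]
      refine ⟨?_, hz⟩
      rcases hy with rfl | rfl <;> exact Or.inr hX
    | succ m ih =>
      intro y hy
      rw [List.replicate_succ, List.cons_append, List.isChain_cons_cons]
      refine ⟨?_, ih b (Or.inr rfl)⟩
      rcases hy with rfl | rfl <;> exact Or.inl rfl
  have h1 : ∀ m (y : Lt Q M.B), (y = a ∨ ∃ q r, y = st q r) →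
      List.IsChain Adj (y :: (List.replicate m a ++ c :: (List.replicate m₂ b ++ X :: v))) := by
    intro m
    induction m with
    | zero =>
      intro y hy
      simp only [List.replicate_zero, List.nil_append]
      rw [List.isChain_cons_cons]
      refine ⟨?_, h2 m₂ c (Or.inl rfl)⟩
      rcases hy with rfl | ⟨q, r, rfl⟩ <;> exact Or.inr rfl
    | succ m ih =>
      intro y hy
      rw [List.replicate_succ, List.cons_append, List.isChain_cons_cons]
      refine ⟨?_, ih a (Or.inl rfl)⟩
      rcases hy with rfl | ⟨q, r, rfl⟩ <;> exact Or.inl rfl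
  exact h1 m₁ _ (Or.inr ⟨q, r, rfl⟩)

/-- Valid histories. -/
theorem chain_of_notMem {w : List (Lt Q M.B)} (h : w ∉ L0 M) : List.IsChain Adj w := by
  rw [List.isChain_iff_forall_rel_of_append_cons_cons]
  rintro x y u v rfl
  exact L0_adj h

/-- prefixing a configuration to a word outside `L0` -/
theorem extend {q : Q} {r : Bool → Fin M.B} {m₁ m₂ : ℕ} {X : Lt Q M.B} {v : List (Lt Q M.B)}
    (hX : X = stop ∨ ∃ q' r', X = st q' r') (hz : X :: v ∉ L0 M) (hbad : ¬ BadX M q r X)
    (hcmp : ∀ q' r', X = st q' r' → ∃ m₁' m₂' X' v', X' ≠ b ∧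
      v = List.replicate m₁' a ++ c :: (List.replicate m₂' b ++ X' :: v') ∧
      M.a q r true * m₁ + M.b q r true = M.B * m₁' + r' true ∧
      M.a q r false * m₂ + M.b q r false = M.B * m₂' + r' false) :
    cword M q r m₁ m₂ (X :: v) ∉ L0 M := by
  have hXb : X ≠ b := by rcases hX with rfl | ⟨q', r', rfl⟩ <;> simp
  have hchain := chain_cword (q := q) (r := r) (m₁ := m₁) (m₂ := m₂) hX (chain_of_notMem hz)
  have ca : (c : Lt Q M.B) ≠ a := by simp
  rintro (⟨u, f, hf, v₀, h⟩ | ⟨u, x, hx, h⟩)
  · rcases hf with ⟨x, y, hxy, rfl⟩ | hf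
    · -- pairs
      rw [List.isChain_iff_forall_rel_of_append_cons_cons] at hchain
      exact hxy (hchain (l₁ := u) (l₂ := v₀) (by simpa using h))
    · -- the other factors start with a letter `st`
      have hst : ∃ q₀ r₀ f', f = st q₀ r₀ :: f' := by
        rcases hf with ⟨q₀, r₀, X₀, i, j, _, rfl⟩ | ⟨q₀, r₀, _, _, _, _, _, _, _, rfl⟩ |
          ⟨q₀, r₀, _, _, _, _, _, _, _, _, _, _, rfl⟩
        · exact ⟨_, _, _, rfl⟩
        · exact ⟨_, _, _, rfl⟩
        · exact ⟨_, _, _, rfl⟩
      cases u with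
      | cons y u =>
        obtain ⟨q₀, r₀, f', rfl⟩ := hst
        simp only [cword, List.cons_append, List.cons.injEq] at h
        have h1 := h.2
        have h2 : (List.replicate m₁ a ++ c :: List.replicate m₂ b) ++ (X :: v) =
            u ++ st q₀ r₀ :: (f' ++ v₀) := by
          simpa using h1
        obtain ⟨u', hu'⟩ := shift (by
          intro y hy
          simp only [List.mem_append, List.mem_cons, List.mem_replicate] at hy
          rcases hy with ⟨_, rfl⟩ | rfl | ⟨_, rfl⟩ <;> intro _ _ <;> simp) h2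
        exact hz (Or.inl ⟨u', _, Or.inr hf, v₀, by simpa using hu'⟩)
      | nil =>
        rw [List.nil_append] at h
        rcases hf with ⟨q₀, r₀, X₀, i, j, hb, rfl⟩ |
          ⟨q₀, r₀, q', r', i, j, i', hn, hne, rfl⟩ |
          ⟨q₀, r₀, q', r', i, j, i', j', X₀, hn, hX₀, hne, rfl⟩
        · simp only [cword, List.cons_append, List.append_assoc, List.cons.injEq,
            Lt.st.injEq] at h
          obtain ⟨⟨rfl, rfl⟩, h⟩ := h
          obtain ⟨-, -, h⟩ := rep_inj ca ca h
          have hX₀ : X₀ ≠ b := by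
            intro h0; rw [h0] at hb; exact hb
          obtain ⟨-, rfl, -⟩ := rep_inj hXb hX₀ h
          exact hbad hb
        · simp only [cword, List.cons_append, List.append_assoc, List.cons.injEq,
            Lt.st.injEq] at h
          obtain ⟨⟨rfl, rfl⟩, h⟩ := h
          obtain ⟨rfl, -, h5⟩ := rep_inj ca ca h
          obtain ⟨rfl, rfl, h6⟩ := rep_inj hXb (by simp) h5
          obtain ⟨m₁', m₂', X', v', hX', rfl, e1, e2⟩ := hcmp _ _ rfl
          obtain ⟨rfl, -, -⟩ := rep_inj ca ca h6
          exact hne e1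
        · simp only [cword, List.cons_append, List.append_assoc, List.cons.injEq,
            Lt.st.injEq] at h
          obtain ⟨⟨rfl, rfl⟩, h⟩ := h
          obtain ⟨rfl, -, h5⟩ := rep_inj ca ca h
          obtain ⟨rfl, rfl, h6⟩ := rep_inj hXb (by simp) h5
          obtain ⟨m₁', m₂', X', v', hX', rfl, e1, e2⟩ := hcmp _ _ rfl
          obtain ⟨rfl, -, h7⟩ := rep_inj ca ca h6
          obtain ⟨rfl, -, -⟩ := rep_inj hX' hX₀ h7
          exact hne e2
  · -- the last letter
    have h1 : cword M q r m₁ m₂ (X :: v) = (st q r :: (List.replicate m₁ a ++ c ::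
        List.replicate m₂ b)) ++ (X :: v) := by simp [cword]
    rw [h1] at h
    obtain ⟨u', x', hux⟩ : ∃ u' x', X :: v = u' ++ [x'] :=
      ⟨(X :: v).dropLast, (X :: v).getLast (by simp), (List.dropLast_append_getLast _).symm⟩
    rw [hux, ← List.append_assoc] at h
    have h2 : x' = x := by
      have := (List.append_inj' h rfl).2
      simpa using this
    exact hz (Or.inr ⟨u', x', by rw [h2]; exact hx, hux⟩)

theorem stop_notMem : ([stop] : List (Lt Q M.B)) ∉ L0 M := by
  rintro (⟨u, f, hf, v, h⟩ | ⟨u, x, hx, h⟩)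
  · have h1 : 2 ≤ f.length := by
      rcases hf with ⟨x, y, _, rfl⟩ | ⟨q₀, r₀, X₀, i, j, _, rfl⟩ |
        ⟨q₀, r₀, _, _, _, _, _, _, _, rfl⟩ | ⟨q₀, r₀, _, _, _, _, _, _, _, _, _, _, rfl⟩
      · simp
      · simp; omega
      · simp; omega
      · simp; omega
    have h2 := congrArg List.length h
    simp at h2
    omega
  · cases u with
    | nil =>
      simp only [List.nil_append, List.cons.injEq, and_true] at h
      exact hx h.symm
    | cons y u => simp at h

theorem word_of_halts {o : Option Q} {n : Bool → ℕ} (h : M.Halts o n) :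
    ∀ q, o = some q → ∃ X v, (X = stop ∨ ∃ q' r', X = st q' r') ∧
      cword M q (M.res n) (n true / M.B) (n false / M.B) (X :: v) ∉ L0 M := by
  induction h with
  | stop n => intro q hq; simp at hq
  | step q₀ n h ih =>
    intro q hq
    obtain rfl : q₀ = q := Option.some.inj hq
    cases hn : M.nxt q₀ (M.res n) with
    | none =>
      refine ⟨stop, [], Or.inl rfl, extend (Or.inl rfl) stop_notMem ?_ ?_⟩
      · intro hb; exact hb hn
      · intro q' r' h; simp at h
    | some q' =>
      obtain ⟨X, v, hX, hw⟩ := ih q' hn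
      refine ⟨st q' (M.res (M.nn q₀ n)), _, Or.inr ⟨_, _, rfl⟩, extend (Or.inr ⟨_, _, rfl⟩)
        hw ?_ ?_⟩
      · intro hb; exact hb hn
      · intro q'' r'' h
        simp only [Lt.st.injEq] at h
        obtain ⟨rfl, rfl⟩ := h
        refine ⟨_, _, X, v, ?_, rfl, ?_, ?_⟩
        · rcases hX with rfl | ⟨q', r', rfl⟩ <;> simp
        · exact (Nat.div_add_mod (M.nn q₀ n true) M.B).symm
        · exact (Nat.div_add_mod (M.nn q₀ n false) M.B).symm

/-- Main result on histories. -/
theorem halts_iff_word (q : Q) (r : Bool → Fin M.B) (m₁ m₂ : ℕ) :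
    M.Halts (some q) (vec M r m₁ m₂) ↔ ∃ X v, X ≠ b ∧ cword M q r m₁ m₂ (X :: v) ∉ L0 M := by
  constructor
  · intro h
    obtain ⟨X, v, hX, hw⟩ := word_of_halts h q rfl
    rw [res_vec, div_vec, div_vec] at hw
    refine ⟨X, v, ?_, by simpa using hw⟩
    rcases hX with rfl | ⟨q', r', rfl⟩ <;> simp
  · rintro ⟨X, v, hX, hw⟩
    exact halts_of_word v.length q r m₁ m₂ X v le_rfl hX hw

end Pool.Agent.W901.GF
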