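import Pool.Agent.W901.GF.Asm
import Pool.Agent.W901.GF.Hist
import Pool.Agent.Helper599.Source2

/-! The undecidability of family equivalence. -/

set_option autoImplicit false

namespace Pool.Agent.W901.GF

open Pool.Agent.Helper230 Pool.Agent.Helper599.Core Pool.Agent.Helper599.Source

/-! ### Coding of letters -/

theorem sys_code {α : Type} {L : Set (List α)} (hL : IsSys L) (code : α → ℕ)
    (m : ℕ) (hm : ∀ x, code x < m) :
    ∃ (Q : Type) (_ : Finite Q) (s : Q) (R : Set (Q × List ℕ × Option Q × List ℕ)),
      R.Finite ∧ Ok m R ∧ ∀ w', LDer R s w' ↔ ∃ w ∈ L, w' = w.map code := by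
  obtain ⟨Q, hQ, s, R, hR, h1, h2, rfl⟩ := hL
  refine ⟨Q, hQ, s, (fun r => (r.1, r.2.1.map code, r.2.2.1, r.2.2.2.map code)) '' R,
    hR.image _, ⟨?_, ?_⟩, ?_⟩
  · rintro q u v ⟨⟨q', u', o', v'⟩, hr, he⟩
    simp only [Prod.mk.injEq] at he
    obtain ⟨rfl, rfl, rfl, rfl⟩ := he
    have h3 := h2 _ _ _ hr
    subst h3
    intro h
    have h4 : u' = [] := by simpa using h
    subst h4
    exact h1 _ _ hr rfl
  · rintro q u o v ⟨⟨q', u', o', v'⟩, hr, he⟩ x hx
    simp only [Prod.mk.injEq] at he
    obtain ⟨rfl, rfl, rfl, rfl⟩ := he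
    rcases hx with hx | hx
    · obtain ⟨y, _, rfl⟩ := List.mem_map.1 hx
      exact hm y
    · obtain ⟨y, _, rfl⟩ := List.mem_map.1 hx
      exact hm y
  · intro w'
    constructor
    · intro h
      have key : ∀ q w', LDer ((fun r : Q × List α × Option Q × List α =>
          (r.1, r.2.1.map code, r.2.2.1, r.2.2.2.map code)) '' R) q w' →
          ∃ w, LDer R q w ∧ w' = w.map code := by
        intro q w' h
        induction h with
        | base h =>
          obtain ⟨⟨q', u', o', v'⟩, hr, he⟩ := h
          simp only [Prod.mk.injEq] at he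
          obtain ⟨rfl, rfl, rfl, rfl⟩ := he
          exact ⟨u' ++ v', LDer.base hr, by simp⟩
        | step h _ ih =>
          obtain ⟨⟨q', u', o', v'⟩, hr, he⟩ := h
          simp only [Prod.mk.injEq] at he
          obtain ⟨rfl, rfl, rfl, rfl⟩ := he
          obtain ⟨w, hw, rfl⟩ := ih
          exact ⟨u' ++ w ++ v', LDer.step hr hw, by simp⟩
      exact key _ _ h
    · rintro ⟨w, hw, rfl⟩
      have hw' : LDer R s w := hw
      induction hw' with
      | @base q u v h =>
        rw [List.map_append]
        exact LDer.base ⟨_, h, rfl⟩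
      | @step q q' u v w h hd ih =>
        rw [List.map_append, List.map_append]
        exact LDer.step ⟨_, h, rfl⟩ (ih hd)

/-! ### Words which leave a given prefix -/

/-- the one-letter words other than `y` -/
def oneL (m y : ℕ) : List (List ℕ) := (List.range m).flatMap (fun x => if x = y then [] else [[x]])

theorem mem_oneL {m y : ℕ} {u : List ℕ} : u ∈ oneL m y ↔ ∃ x < m, x ≠ y ∧ u = [x] := by
  simp only [oneL, List.mem_flatMap, List.mem_range]
  constructor
  · rintro ⟨x, hx, h⟩
    split_ifs at h with hxy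
    · simp at h
    · exact ⟨x, hx, hxy, by simpa using h⟩
  · rintro ⟨x, hx, hxy, rfl⟩
    exact ⟨x, hx, by rw [if_neg hxy]; simp⟩

/-- shortest words which are not consistent with the prefix `π` followed by a letter other
than `b` -/
def badl (m b : ℕ) (π : List ℕ) : List (List ℕ) :=
  π.foldr (fun y acc => oneL m y ++ acc.map (fun u => y :: u)) [[b]]

theorem badl_cons (m b y : ℕ) (π : List ℕ) :
    badl m b (y :: π) = oneL m y ++ (badl m b π).map (fun u => y :: u) := rfl

theorem badl_lt {m b : ℕ} (hb : b < m) {π : List ℕ} (hπ : ∀ x ∈ π, x < m) :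
    ∀ u ∈ badl m b π, ∀ x ∈ u, x < m := by
  induction π with
  | nil =>
    intro u hu x hx
    have h1 : u = [b] := by simpa [badl] using hu
    subst h1
    have h2 : x = b := by simpa using hx
    omega
  | cons y π ih =>
    intro u hu x hx
    rw [badl_cons, List.mem_append, List.mem_map] at hu
    rcases hu with hu | ⟨u', hu', rfl⟩
    · obtain ⟨z, hz, _, rfl⟩ := mem_oneL.1 hu
      have h2 : x = z := by simpa using hx
      omega
    · rcases List.mem_cons.1 hx with rfl | hx
      · exact hπ _ List.mem_cons_self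
      · exact ih (fun z hz => hπ z (List.mem_cons_of_mem _ hz)) u' hu' x hx

theorem badl_cover {m b : ℕ} (π : List ℕ) : ∀ w : List ℕ, (∀ x ∈ w, x < m) →
    (∃ u ∈ badl m b π, ∃ v, w = u ++ v) ∨ (∃ t, π = w ++ t) ∨
      (∃ X v, X ≠ b ∧ w = π ++ X :: v) := by
  induction π with
  | nil =>
    intro w _
    cases w with
    | nil => exact Or.inr (Or.inl ⟨[], rfl⟩)
    | cons X v =>
      by_cases hX : X = b
      · subst hX
        exact Or.inl ⟨[X], by simp [badl], v, rfl⟩
      · exact Or.inr (Or.inr ⟨X, v, hX, rfl⟩)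
  | cons y π ih =>
    intro w hw
    cases w with
    | nil => exact Or.inr (Or.inl ⟨y :: π, rfl⟩)
    | cons x w =>
      by_cases hxy : x = y
      · subst hxy
        rcases ih w (fun z hz => hw z (List.mem_cons_of_mem _ hz)) with ⟨u, hu, v, rfl⟩ |
          ⟨t, rfl⟩ | ⟨X, v, hX, rfl⟩
        · refine Or.inl ⟨x :: u, ?_, v, rfl⟩
          rw [badl_cons, List.mem_append, List.mem_map]
          exact Or.inr ⟨u, hu, rfl⟩
        · exact Or.inr (Or.inl ⟨t, rfl⟩)
        · exact Or.inr (Or.inr ⟨X, v, hX, rfl⟩)
      · refine Or.inl ⟨[x], ?_, w, rfl⟩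
        rw [badl_cons, List.mem_append]
        exact Or.inl (mem_oneL.2 ⟨x, hw x List.mem_cons_self, hxy, rfl⟩)

theorem badl_avoid {m b : ℕ} (π : List ℕ) : ∀ u ∈ badl m b π, ∀ X v v', X ≠ b →
    π ++ X :: v ≠ u ++ v' := by
  induction π with
  | nil =>
    intro u hu X v v' hX h
    have h1 : u = [b] := by simpa [badl] using hu
    subst h1
    simp only [List.nil_append, List.cons_append, List.cons.injEq] at h
    exact hX h.1
  | cons y π ih =>
    intro u hu X v v' hX h
    rw [badl_cons, List.mem_append, List.mem_map] at hu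
    rcases hu with hu | ⟨u', hu', rfl⟩
    · obtain ⟨z, hz, hzy, rfl⟩ := mem_oneL.1 hu
      simp only [List.cons_append, List.nil_append, List.cons.injEq] at h
      exact hzy h.1.symm
    · simp only [List.cons_append, List.cons.injEq, true_and] at h
      exact ih u' hu' X v v' hX h

theorem primrec_badl (m b : ℕ) : Primrec (badl m b) := by
  have h1 : Primrec (oneL m) := by
    refine Primrec.list_flatMap (Primrec.const _) ?_
    refine Primrec.ite (PrimrecRel.comp Primrec.eq Primrec.snd Primrec.fst)
      (Primrec.const _) ?_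
    exact Primrec.list_cons.comp (Primrec.list_cons.comp Primrec.snd (Primrec.const []))
      (Primrec.const [])
  have h2 : Primrec₂ (fun (y : ℕ) (acc : List (List ℕ)) => acc.map (fun u => y :: u)) := by
    refine Primrec.list_map Primrec.snd ?_
    exact Primrec.list_cons.comp (Primrec.fst.comp Primrec.fst) Primrec.snd
  refine Primrec.list_foldr (f := fun π : List ℕ => π) (g := fun _ => [[b]])
    (h := fun _ (p : ℕ × List (List ℕ)) => oneL m p.1 ++ p.2.map (fun u => p.1 :: u))
    Primrec.id (Primrec.const _) ?_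
  exact Primrec.list_append.comp (h1.comp (Primrec.fst.comp Primrec.snd))
    (h2.comp (Primrec.fst.comp Primrec.snd) (Primrec.snd.comp Primrec.snd))

theorem primrec_eprods (m : ℕ) : Primrec (eprods m) := by
  refine Primrec.list_flatMap Primrec.id ?_
  have h1 : Primrec (fun p : List (List ℕ) × List ℕ => pp m ++ p.2) :=
    Primrec.list_append.comp (Primrec.const _) Primrec.snd
  have h2 : Primrec (fun p : List (List ℕ) × List ℕ => pp m ++ p.2 ++ [m + 2]) :=
    Primrec.list_append.comp h1 (Primrec.const _)
  exact Primrec.list_cons.comp (Primrec.pair (Primrec.const _) h1)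
    (Primrec.list_cons.comp (Primrec.pair (Primrec.const _) h2) (Primrec.const []))

theorem primrec_gram {m : ℕ} {Q0 : Type} [Finite Q0] (e0 : Q0 → ℕ) (s0 : Q0)
    (R0 : Set (Q0 × List ℕ × Option Q0 × List ℕ)) (hR0 : R0.Finite) :
    Primrec (fun l : List (List ℕ) => gram m e0 s0 R0 hR0 l) := by
  refine Primrec.pair (Primrec.const _) (Primrec.pair (Primrec.const _)
    (Primrec.pair (Primrec.const _) ?_))
  exact Primrec.list_append.comp (Primrec.const _) (primrec_eprods m)

/-! ### The main theorem -/

/-- There is a linear grammar such that no algorithm decides, for given linear grammars with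
smaller or equal families, whether they are family equivalent to it. -/
theorem main : ∃ G₀ : Gram, G₀.IsCFG ∧ G₀.IsLinear ∧ ∀ f : Gram × Gram → Bool, Computable f →
    ∃ G : Gram, G.IsCFG ∧ G.IsLinear ∧ family G ⊆ family G₀ ∧
      ¬ (f (G₀, G) = true ↔ family G₀ = family G) := by
  obtain ⟨Q, hQ, M, q0, N, hB, hM, hN, hund⟩ := exists_sys2
  obtain ⟨m, ⟨eqv⟩⟩ := Finite.exists_equiv_fin (Lt Q M.B)
  let code : Lt Q M.B → ℕ := fun x => eqv x
  have hcode : ∀ x, code x < m := fun x => (eqv x).2
  have hinj : Function.Injective code := fun x y h => eqv.injective (Fin.ext h)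
  have hsurj : ∀ k < m, ∃ x, code x = k := fun k hk => ⟨eqv.symm ⟨k, hk⟩, by simp [code]⟩
  have hsurjL : ∀ w : List ℕ, (∀ x ∈ w, x < m) → ∃ w' : List (Lt Q M.B), w = w'.map code := by
    intro w hw
    induction w with
    | nil => exact ⟨[], rfl⟩
    | cons x w ih =>
      obtain ⟨w', rfl⟩ := ih (fun y hy => hw y (List.mem_cons_of_mem _ hy))
      obtain ⟨y, rfl⟩ := hsurj x (hw x List.mem_cons_self)
      exact ⟨y :: w', rfl⟩
  obtain ⟨Q0, hQ0, s0, R0, hR0, hok, hL0⟩ := sys_code (lin_L0 M hM).isSys code m hcode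
  obtain ⟨e0, he0⟩ := exists_injective_nat Q0
  -- the initial word
  let tab : List ℕ := List.ofFn (fun i : Fin M.B =>
    code (Lt.st q0 (fun j => if j then i else ⟨0, M.hB⟩)))
  let π : ℕ → List ℕ := fun n => tab.getD (N n % M.B) 0 ::
    ((List.range (N n / M.B)).map (fun _ => code Lt.a) ++ [code Lt.c])
  have hres : ∀ k, M.res (ini k) = fun j => if j then ⟨k % M.B, Nat.mod_lt _ M.hB⟩
      else ⟨0, M.hB⟩ := by
    intro k
    funext j
    cases j <;> simp [Sys.res, ini]
  have hπ : ∀ n, π n = (Lt.st q0 (M.res (ini (N n))) :: (List.replicate (N n / M.B) Lt.a ++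
      [Lt.c])).map code := by
    intro n
    simp only [π, List.map_cons, List.map_append, List.map_replicate, List.map_nil]
    congr 1
    · rw [hres]
      have h1 : N n % M.B < tab.length := by
        simp only [tab, List.length_ofFn]; exact Nat.mod_lt _ M.hB
      rw [List.getD_eq_getElem _ _ h1]
      simp [tab]
    · congr 1
      rw [List.map_const', List.length_range]
  let gn : ℕ → Gram := fun n => gram m e0 s0 R0 hR0 (badl m (code Lt.b) (π n))
  have hbm : code Lt.b < m := hcode _
  have hπlt : ∀ n, ∀ x ∈ π n, x < m := by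
    intro n x hx
    rw [hπ n, List.mem_map] at hx
    obtain ⟨y, _, rfl⟩ := hx
    exact hcode y
  have hl : ∀ n, ∀ u ∈ badl m (code Lt.b) (π n), ∀ x ∈ u, x < m :=
    fun n => badl_lt hbm (hπlt n)
  -- the criterion
  have hcrit : ∀ n, family (gram m e0 s0 R0 hR0 [[]]) = family (gn n) ↔
      ¬ M.Halts (some q0) (ini (N n)) := by
    intro n
    rw [family_eq_iff hR0 _ hok he0 (hl n)]
    have hini : ini (N n) = vec M (M.res (ini (N n))) (N n / M.B) 0 := by
      have := vec_res (M := M) (ini (N n))
      conv_lhs => rw [← this]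
      simp [ini]
    have hword : ∀ X v, (cword M q0 (M.res (ini (N n))) (N n / M.B) 0 (X :: v)).map code =
        π n ++ code X :: v.map code := by
      intro X v
      rw [hπ n]
      simp [cword]
    have hno : ∀ X v, cword M q0 (M.res (ini (N n))) (N n / M.B) 0 (X :: v) =
        Lt.st q0 (M.res (ini (N n))) :: (List.replicate (N n / M.B) Lt.a ++ [Lt.c]) ++ X :: v := by
      intro X v
      simp [cword]
    rw [hini, halts_iff_word]
    constructor
    · rintro h ⟨X, v, hX, hw⟩
      have hXb : code X ≠ code Lt.b := fun h => hX (hinj h)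
      rcases h ((cword M q0 (M.res (ini (N n))) (N n / M.B) 0 (X :: v)).map code) (by
        intro x hx
        obtain ⟨y, _, rfl⟩ := List.mem_map.1 hx
        exact hcode y) with h1 | h1 | ⟨u, hu, v', _, h1⟩
      · simp [cword] at h1
      · obtain ⟨w, hwL, h2⟩ := (hL0 _).1 h1
        have := List.map_injective_iff.2 hinj h2
        rw [this] at hw
        exact hw hwL
      · rw [hword] at h1
        exact badl_avoid _ u hu _ _ _ hXb h1
    · intro h w' hw'
      rcases badl_cover (b := code Lt.b) (π n) w' hw' with ⟨u, hu, v, rfl⟩ | ⟨t, ht⟩ |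
        ⟨X, v, hX, rfl⟩
      · refine Or.inr (Or.inr ⟨u, hu, v, ?_, rfl⟩)
        intro x hx
        exact hw' x (List.mem_append_right _ hx)
      · by_cases hw0 : w' = []
        · exact Or.inl hw0
        · refine Or.inr (Or.inl ((hL0 _).2 ?_))
          obtain ⟨w, rfl⟩ := hsurjL w' hw'
          refine ⟨w, ?_, rfl⟩
          -- the last letter of `w` is not `stop`
          have hw1 : w ≠ [] := by rintro rfl; exact hw0 rfl
          refine Or.inr ⟨w.dropLast, w.getLast hw1, ?_, (List.dropLast_append_getLast hw1).symm⟩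
          intro hs
          have hmem : Lt.stop ∈ w := by rw [← hs]; exact List.getLast_mem hw1
          rw [hπ n] at ht
          have h3 : code Lt.stop ∈ (Lt.st q0 (M.res (ini (N n))) ::
              (List.replicate (N n / M.B) Lt.a ++ [Lt.c])).map code := by
            rw [ht]
            exact List.mem_append_left _ (List.mem_map.2 ⟨_, hmem, rfl⟩)
          obtain ⟨y, hy, hys⟩ := List.mem_map.1 h3
          have := hinj hys
          subst this
          simp at hy
      · refine Or.inr (Or.inl ((hL0 _).2 ?_))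
        obtain ⟨X', rfl⟩ := hsurj X (hw' X (by simp))
        obtain ⟨v', rfl⟩ := hsurjL v (fun x hx => hw' x (by simp [hx]))
        refine ⟨cword M q0 (M.res (ini (N n))) (N n / M.B) 0 (X' :: v'), ?_, (hword _ _).symm⟩
        by_contra hcon
        exact h ⟨X', v', fun h => hX (by rw [h]), hcon⟩
  -- computability
  have hgn : Computable gn := by
    have h1 : Computable (fun n => N n % M.B) :=
      (Primrec.nat_mod.comp Primrec.id (Primrec.const M.B)).to_comp.comp hN
    have h2 : Computable (fun n => N n / M.B) :=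
      (Primrec.nat_div.comp Primrec.id (Primrec.const M.B)).to_comp.comp hN
    have h3 : Primrec (fun k : ℕ => tab.getD k 0) :=
      (Primrec.list_getD 0).comp (Primrec.const tab) Primrec.id
    have h4 : Primrec (fun k : ℕ => (List.range k).map (fun _ => code Lt.a) ++ [code Lt.c]) :=
      Primrec.list_append.comp (Primrec.list_map Primrec.list_range (Primrec₂.const _))
        (Primrec.const _)
    have h5 : Computable π := Computable.list_cons.comp (h3.to_comp.comp h1) (h4.to_comp.comp h2)
    exact (primrec_gram e0 s0 R0 hR0).to_comp.comp ((primrec_badl m _).to_comp.comp h5)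
  have hl0 : ∀ u ∈ ([[]] : List (List ℕ)), ∀ x ∈ u, x < m := by simp
  refine ⟨gram m e0 s0 R0 hR0 [[]], gram_ok hR0 _ hok hl0, gram_linear hR0 _ hok hl0, ?_⟩
  intro f hf
  by_contra hcon
  push Not at hcon
  apply hund
  have hf' : Computable (fun n => ! f (gram m e0 s0 R0 hR0 [[]], gn n)) :=
    Primrec.not.to_comp.comp (hf.comp (Computable.pair (Computable.const _) hgn))
  refine ComputablePred.computable_iff.2 ⟨_, hf', ?_⟩
  funext n
  have h1 := hcon (gn n) (gram_ok hR0 _ hok (hl n)) (gram_linear hR0 _ hok (hl n))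
    (gram_subset hR0 _ hok he0 (hl n))
  have h2 := hcrit n
  apply propext
  constructor
  · intro h
    have h3 : ¬ (f (gram m e0 s0 R0 hR0 [[]], gn n) = true) := by
      intro h4
      exact (h2.1 (h1.1 h4)) h
    simpa using h3
  · intro h
    by_contra h3
    have h4 := h1.2 (h2.2 h3)
    rw [h4] at h
    simp at h

end Pool.Agent.W901.GF
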